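import Mathlib

/-!
# Surfaces `φ(z) = f(x,y)`: the definitions used in the statement
-/

namespace Pool.Agent.TQU

open Polynomial

universe u

/-- `φ` is an additive polynomial: additive on all field extensions of `k`. -/
def AddPoly {k : Type u} [Field k] (φ : k[X]) : Prop :=
  ∀ (L : Type u) [Field L] [Algebra k L] (a b : L), aeval (a + b) φ = aeval a φ + aeval b φ

/-- restriction of `f` to the parametrized line `τ ↦ p + τ δ` -/
noncomputable def lin {k A : Type*} [CommRing k] [CommRing A] [Algebra k A]
    (f : MvPolynomial (Fin 2) k) (p δ : Fin 2 → A) : A[X] :=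
  MvPolynomial.aeval (fun i => C (p i) + X * C (δ i)) f

/-- coordinate ring of the plane affine curve `F = 0` -/
abbrev CR {M : Type*} [Field M] (F : MvPolynomial (Fin 2) M) : Type _ :=
  MvPolynomial (Fin 2) M ⧸ Ideal.span {F}

/-- the ideal of the point `Q` in the coordinate ring of `F = 0` -/
noncomputable def ptIdeal {M : Type*} [Field M] (F : MvPolynomial (Fin 2) M) (Q : Fin 2 → M) :
    Ideal (CR F) :=
  (Ideal.span (Set.range fun i => MvPolynomial.X i - MvPolynomial.C (Q i))).map
    (Ideal.Quotient.mk (Ideal.span {F}))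

/-- the equation `f - f(P)` of the level curve of `f` through `P` -/
noncomputable def levelPoly {k M : Type*} [Field k] [Field M] [Algebra k M]
    (f : MvPolynomial (Fin 2) k) (P : Fin 2 → M) : MvPolynomial (Fin 2) M :=
  MvPolynomial.map (algebraMap k M) f - MvPolynomial.C (MvPolynomial.aeval P f)

/-- The 0-cycle `P + Q` of the plane and `z` are defined over a field generated by two finitely
generated extensions of `k` of transcendence degree at most one. -/
def FromCurves (k : Type u) {M : Type u} [Field k] [Field M] [Algebra k M] (z : M)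
    (P Q : Fin 2 → M) : Prop :=
  ∃ K₁ K₂ : IntermediateField k M, K₁.FG ∧ K₂.FG ∧ Algebra.trdeg k K₁ ≤ 1 ∧
    Algebra.trdeg k K₂ ≤ 1 ∧ z ∈ K₁ ⊔ K₂ ∧ (∀ i, P i + Q i ∈ K₁ ⊔ K₂) ∧
    ∀ i j, P i * Q j + P j * Q i ∈ K₁ ⊔ K₂

end Pool.Agent.TQU
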