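import Pool.Agent.TQU.Pt

/-!
[TQU-F] points and maximal ideals of the coordinate ring `CR F` of a smooth plane affine curve over
an algebraically closed field; factorization of a principal ideal.

Proofs. `pt_eq_ker`: `ptIdeal F Q` is the kernel of `CR F → M`, `g ↦ g(Q)` (`F(Q) = 0`): a polynomial
vanishing at `Q` is in `(X_0 - Q_0, X_1 - Q_1)` (`MvPolynomial.vanishingIdeal` of a point, or
`MvPolynomial.mem_ideal_span_X_image`-style; or: `g - C (g(Q))` is in that ideal by induction on `g`).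
`pt_max`: the quotient is `M`. `pt_res`: `r = mk g`, `c = g(Q)`. `pt_ne_bot`: if `ptIdeal F Q = 0` then
`X_i - Q_i` is divisible by `F` for both `i`; `X_0 - Q_0`, `X_1 - Q_1` have no common nonunit divisor, so `F`
would be a unit, contradiction with `F(Q) = 0`.
`max_is_pt`: Nullstellensatz (`MvPolynomial.isMaximal_iff_eq_vanishingIdeal_singleton`) for the comap of
`m` to `M[X,Y]`.
`factor_pts`: a nonzero ideal of a Dedekind domain is a product of nonzero primes = maximal ideals
(`UniqueFactorizationMonoid.exists_prime_factors` or `normalizedFactors`, associated ideals are equal);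
each of them contains `h`, so `h(Q) = 0`.
-/

namespace Pool.Agent.TQU

variable {M : Type*} [Field M]

theorem RF_sub_mem (Q : Fin 2 → M) (g : MvPolynomial (Fin 2) M) :
    g - MvPolynomial.C (MvPolynomial.eval Q g) ∈
      Ideal.span (Set.range fun i => MvPolynomial.X i - MvPolynomial.C (Q i)) := by
  induction g using MvPolynomial.induction_on with
  | C a =>
    rw [MvPolynomial.eval_C, sub_self]
    exact Ideal.zero_mem _
  | add p q hp hq =>
    rw [map_add, MvPolynomial.C_add]
    have : p + q - (MvPolynomial.C (MvPolynomial.eval Q p) + MvPolynomial.C (MvPolynomial.eval Q q))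
        = (p - MvPolynomial.C (MvPolynomial.eval Q p)) +
          (q - MvPolynomial.C (MvPolynomial.eval Q q)) := by ring
    rw [this]
    exact Ideal.add_mem _ hp hq
  | mul_X p n hp =>
    rw [map_mul, MvPolynomial.eval_X, MvPolynomial.C_mul]
    have : p * MvPolynomial.X n -
        MvPolynomial.C (MvPolynomial.eval Q p) * MvPolynomial.C (Q n) =
        MvPolynomial.X n * (p - MvPolynomial.C (MvPolynomial.eval Q p)) +
          MvPolynomial.C (MvPolynomial.eval Q p) *
            (MvPolynomial.X n - MvPolynomial.C (Q n)) := by ring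
    rw [this]
    exact Ideal.add_mem _ (Ideal.mul_mem_left _ _ hp)
      (Ideal.mul_mem_left _ _ (Ideal.subset_span ⟨n, rfl⟩))

theorem RF_eval_zero (Q : Fin 2 → M) (g : MvPolynomial (Fin 2) M)
    (hg : g ∈ Ideal.span (Set.range fun i => MvPolynomial.X i - MvPolynomial.C (Q i))) :
    MvPolynomial.eval Q g = 0 := by
  have h : Ideal.span (Set.range fun i => MvPolynomial.X i - MvPolynomial.C (Q i)) ≤
      RingHom.ker (MvPolynomial.eval Q) := by
    rw [Ideal.span_le]
    rintro _ ⟨i, rfl⟩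
    rw [SetLike.mem_coe, RingHom.mem_ker]
    simp
  exact (RingHom.mem_ker).1 (h hg)

theorem mem_pt (F : MvPolynomial (Fin 2) M) (Q : Fin 2 → M) (hQ : MvPolynomial.eval Q F = 0)
    (g : MvPolynomial (Fin 2) M) :
    Ideal.Quotient.mk (Ideal.span {F}) g ∈ ptIdeal F Q ↔ MvPolynomial.eval Q g = 0 := by
  constructor
  · intro h
    obtain ⟨x, hx, hxg⟩ := (Ideal.mem_map_iff_of_surjective _ Ideal.Quotient.mk_surjective).1 h
    rw [Ideal.Quotient.eq, Ideal.mem_span_singleton] at hxg
    obtain ⟨w, hw⟩ := hxg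
    have h1 : MvPolynomial.eval Q (x - g) = 0 := by rw [hw, map_mul, hQ, zero_mul]
    rw [map_sub, RF_eval_zero Q x hx, zero_sub, neg_eq_zero] at h1
    exact h1
  · intro h
    have h1 := RF_sub_mem Q g
    rw [h, MvPolynomial.C_0, sub_zero] at h1
    exact Ideal.mem_map_of_mem _ h1

theorem pt_max (F : MvPolynomial (Fin 2) M) (Q : Fin 2 → M) (hQ : MvPolynomial.eval Q F = 0) :
    (ptIdeal F Q).IsMaximal := by
  have hF : ∀ a ∈ Ideal.span {F}, MvPolynomial.eval Q a = 0 := by
    intro a ha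
    obtain ⟨w, rfl⟩ := Ideal.mem_span_singleton.1 ha
    rw [map_mul, hQ, zero_mul]
  have h : ptIdeal F Q = RingHom.ker (Ideal.Quotient.lift (Ideal.span {F})
      (MvPolynomial.eval Q) hF) := by
    ext r
    obtain ⟨g, rfl⟩ := Ideal.Quotient.mk_surjective r
    rw [mem_pt F Q hQ, RingHom.mem_ker, Ideal.Quotient.lift_mk]
  rw [h]
  apply RingHom.ker_isMaximal_of_surjective
  intro z
  exact ⟨Ideal.Quotient.mk _ (MvPolynomial.C z), by simp⟩

theorem pt_res (F : MvPolynomial (Fin 2) M) (Q : Fin 2 → M) (hQ : MvPolynomial.eval Q F = 0)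
    (r : CR F) : ∃ c : M, r - algebraMap M (CR F) c ∈ ptIdeal F Q := by
  obtain ⟨g, rfl⟩ := Ideal.Quotient.mk_surjective r
  refine ⟨MvPolynomial.eval Q g, ?_⟩
  have h : Ideal.Quotient.mk (Ideal.span {F}) g -
      algebraMap M (CR F) (MvPolynomial.eval Q g) =
      Ideal.Quotient.mk (Ideal.span {F}) (g - MvPolynomial.C (MvPolynomial.eval Q g)) := by
    rw [map_sub]
    rfl
  rw [h, mem_pt F Q hQ]
  simp

theorem pt_ne_bot (F : MvPolynomial (Fin 2) M) (Q : Fin 2 → M) (hQ : MvPolynomial.eval Q F = 0) :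
    ptIdeal F Q ≠ ⊥ := by
  intro hbot
  have h1 : ∀ i : Fin 2, F ∣ MvPolynomial.X i - MvPolynomial.C (Q i) := by
    intro i
    have h2 : Ideal.Quotient.mk (Ideal.span {F}) (MvPolynomial.X i - MvPolynomial.C (Q i)) ∈
        ptIdeal F Q := by
      rw [mem_pt F Q hQ]
      simp
    rw [hbot, Submodule.mem_bot, Ideal.Quotient.eq_zero_iff_mem, Ideal.mem_span_singleton] at h2
    exact h2
  have hne : ∀ i : Fin 2, (MvPolynomial.X i - MvPolynomial.C (Q i) : MvPolynomial (Fin 2) M) ≠ 0 := by
    intro i h0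
    have h2 := congrArg (MvPolynomial.eval (fun _ => Q i + 1)) h0
    simp at h2
  have hdeg : ∀ i j : Fin 2, i ≠ j → MvPolynomial.degreeOf i F = 0 := by
    intro i j hij
    obtain ⟨G, hG⟩ := h1 j
    have hF0 : F ≠ 0 := by
      rintro rfl
      exact hne j (by rw [hG, zero_mul])
    have hG0 : G ≠ 0 := by
      rintro rfl
      exact hne j (by rw [hG, mul_zero])
    have h3 := MvPolynomial.degreeOf_mul_eq (n := i) hF0 hG0
    rw [← hG] at h3
    have h4 : MvPolynomial.degreeOf i
        (MvPolynomial.X j - MvPolynomial.C (Q j) : MvPolynomial (Fin 2) M) = 0 := by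
      rw [sub_eq_add_neg, ← MvPolynomial.C_neg]
      have h5 := MvPolynomial.degreeOf_add_le i (MvPolynomial.X j)
        (MvPolynomial.C (-(Q j)) : MvPolynomial (Fin 2) M)
      rw [MvPolynomial.degreeOf_C, MvPolynomial.degreeOf_X, if_neg hij] at h5
      simpa using h5
    omega
  have hFC : F = MvPolynomial.C (MvPolynomial.coeff 0 F) := by
    ext m
    rw [MvPolynomial.coeff_C]
    by_cases hm : 0 = m
    · rw [if_pos hm, hm]
    · rw [if_neg hm]
      by_contra hc
      apply hm
      ext i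
      have h6 := MvPolynomial.monomial_le_degreeOf i (MvPolynomial.mem_support_iff.2 hc)
      have h7 : MvPolynomial.degreeOf i F = 0 := by
        fin_cases i
        · exact hdeg 0 1 (by decide)
        · exact hdeg 1 0 (by decide)
      rw [h7] at h6
      rw [Finsupp.zero_apply]
      omega
  have h8 : MvPolynomial.coeff 0 F = 0 := by
    rw [hFC, MvPolynomial.eval_C] at hQ
    exact hQ
  rw [h8, MvPolynomial.C_0] at hFC
  obtain ⟨G, hG⟩ := h1 0
  exact hne 0 (by rw [hG, hFC, zero_mul])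

theorem pt_inj (F : MvPolynomial (Fin 2) M) (P Q : Fin 2 → M) (hP : MvPolynomial.eval P F = 0)
    (hQ : MvPolynomial.eval Q F = 0) (h : ptIdeal F P = ptIdeal F Q) : P = Q := by
  funext i
  have h1 : Ideal.Quotient.mk (Ideal.span {F}) (MvPolynomial.X i - MvPolynomial.C (P i)) ∈
      ptIdeal F P := by
    rw [mem_pt F P hP]
    simp
  rw [h, mem_pt F Q hQ] at h1
  rw [map_sub, MvPolynomial.eval_X, MvPolynomial.eval_C, sub_eq_zero] at h1
  exact h1.symm

theorem max_is_pt [IsAlgClosed M] (F : MvPolynomial (Fin 2) M) (m : Ideal (CR F))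
    (hm : m.IsMaximal) : ∃ Q : Fin 2 → M, MvPolynomial.eval Q F = 0 ∧ m = ptIdeal F Q := by
  have h1 : (m.comap (Ideal.Quotient.mk (Ideal.span {F}))).IsMaximal :=
    Ideal.comap_isMaximal_of_surjective _ Ideal.Quotient.mk_surjective
  obtain ⟨Q, hQ⟩ := MvPolynomial.isMaximal_iff_eq_vanishingIdeal_singleton.1 h1
  have hmem : ∀ g : MvPolynomial (Fin 2) M, Ideal.Quotient.mk (Ideal.span {F}) g ∈ m ↔
      MvPolynomial.eval Q g = 0 := by
    intro g
    rw [← Ideal.mem_comap, hQ, MvPolynomial.mem_vanishingIdeal_singleton_iff,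
      MvPolynomial.aeval_eq_eval]
  have hF : MvPolynomial.eval Q F = 0 := by
    rw [← hmem, Ideal.Quotient.eq_zero_iff_mem.2 (Ideal.mem_span_singleton_self F)]
    exact m.zero_mem
  refine ⟨Q, hF, ?_⟩
  ext r
  obtain ⟨g, rfl⟩ := Ideal.Quotient.mk_surjective r
  rw [hmem, mem_pt F Q hF]

theorem factor_pts [IsAlgClosed M] (F : MvPolynomial (Fin 2) M) [IsDedekindDomain (CR F)]
    (h : MvPolynomial (Fin 2) M) (hh : ¬ F ∣ h) :
    ∃ s : Multiset (Fin 2 → M), (∀ Q ∈ s, MvPolynomial.eval Q F = 0 ∧ MvPolynomial.eval Q h = 0) ∧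
      Ideal.span {Ideal.Quotient.mk (Ideal.span {F}) h} = (s.map (ptIdeal F)).prod := by
  classical
  have hne : Ideal.span {Ideal.Quotient.mk (Ideal.span {F}) h} ≠ ⊥ := by
    rw [Ne, Ideal.span_singleton_eq_bot, Ideal.Quotient.eq_zero_iff_mem,
      Ideal.mem_span_singleton]
    exact hh
  have key : ∀ J ∈ UniqueFactorizationMonoid.normalizedFactors
      (Ideal.span {Ideal.Quotient.mk (Ideal.span {F}) h}),
      ∃ Q : Fin 2 → M, MvPolynomial.eval Q F = 0 ∧ J = ptIdeal F Q := by
    intro J hJ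
    have h1 := UniqueFactorizationMonoid.prime_of_normalized_factor J hJ
    have h2 : J.IsPrime := Ideal.isPrime_of_prime h1
    exact max_is_pt F J (h2.isMaximal h1.ne_zero)
  obtain ⟨φ, hφ⟩ : ∃ φ : Ideal (CR F) → (Fin 2 → M),
      ∀ J ∈ UniqueFactorizationMonoid.normalizedFactors
        (Ideal.span {Ideal.Quotient.mk (Ideal.span {F}) h}),
      MvPolynomial.eval (φ J) F = 0 ∧ J = ptIdeal F (φ J) := by
    refine ⟨fun J => if hJ : ∃ Q : Fin 2 → M, MvPolynomial.eval Q F = 0 ∧ J = ptIdeal F Q then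
      hJ.choose else 0, fun J hJ => ?_⟩
    have h1 := key J hJ
    simp only [dif_pos h1]
    exact h1.choose_spec
  refine ⟨(UniqueFactorizationMonoid.normalizedFactors
      (Ideal.span {Ideal.Quotient.mk (Ideal.span {F}) h})).map φ, ?_, ?_⟩
  · intro Q hQ
    obtain ⟨J, hJ, rfl⟩ := Multiset.mem_map.1 hQ
    obtain ⟨h1, h2⟩ := hφ J hJ
    refine ⟨h1, ?_⟩
    have h3 : Ideal.span {Ideal.Quotient.mk (Ideal.span {F}) h} ≤ J :=
      Ideal.le_of_dvd (UniqueFactorizationMonoid.dvd_of_mem_normalizedFactors hJ)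
    have h4 := h3 (Ideal.mem_span_singleton_self _)
    rw [h2, mem_pt F _ h1] at h4
    exact h4
  · rw [Multiset.map_map]
    have h1 : Multiset.map (ptIdeal F ∘ φ) (UniqueFactorizationMonoid.normalizedFactors
        (Ideal.span {Ideal.Quotient.mk (Ideal.span {F}) h})) =
        Multiset.map id (UniqueFactorizationMonoid.normalizedFactors
        (Ideal.span {Ideal.Quotient.mk (Ideal.span {F}) h})) :=
      Multiset.map_congr rfl fun J hJ => (hφ J hJ).2.symm
    rw [h1, Multiset.map_id, Ideal.prod_normalizedFactors_eq_self hne]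

end Pool.Agent.TQU
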