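import Pool.Agent.TQU.Pt

/-!
[TQU-W] counting in a Dedekind domain `R` over a field `M`: each maximal ideal `m` with `R = M + m`
imposes at most one linear condition.

Proof. (1) `two`: `J ≠ 0`. If `a ∈ J * m` take `(c,d) = (1,0)`. Otherwise `K = span {a} ⊔ J * m`
satisfies `J * m < K ≤ J`; in a Dedekind domain `K = J * L` with `L ∣ m` (`Ideal.dvd_iff_le`, cancel
`J ≠ 0`), so `L = 1` or `L = m`; `L = m` gives `K = J * m`, impossible; so `K = J ∋ b`,
`b = r a + c`, `c ∈ J * m`, `r - r₀ ∈ m` with `r₀ ∈ M`, and `b - r₀ a ∈ J * m` (`(r - r₀) a ∈ m J`).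
(2) `count`: induction on the multiset, adding one ideal `m` to `s`, `J = s.prod`:
`comap Λ (J m) ≤ comap Λ J =: W` and any two elements of `W` are linearly dependent modulo
`comap Λ (J m)` (by (1)), so `finrank W ≤ finrank (comap Λ (J m)) + 1` (the quotient
`W ⧸ ..` has finrank `≤ 1`, `finrank_le_one` or `finrank_le_one_iff`, with
`Submodule.finrank_quotient_add_finrank`).
-/

namespace Pool.Agent.TQU

theorem two {M R : Type*} [Field M] [CommRing R] [IsDedekindDomain R] [Algebra M R]
    (J m : Ideal R) (hJ : J ≠ ⊥) (hm : m.IsMaximal)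
    (hres : ∀ r : R, ∃ c : M, r - algebraMap M R c ∈ m) (a b : R) (ha : a ∈ J) (hb : b ∈ J) :
    ∃ c d : M, (c ≠ 0 ∨ d ≠ 0) ∧ c • a + d • b ∈ J * m := by
  classical
  by_cases haJ : a ∈ J * m
  · refine ⟨1, 0, Or.inl one_ne_zero, ?_⟩
    rw [one_smul, zero_smul, add_zero]
    exact haJ
  · have hKJ : Ideal.span {a} ⊔ J * m ≤ J :=
      sup_le ((Ideal.span_singleton_le_iff_mem _).2 ha) Ideal.mul_le_left
    obtain ⟨L, hL⟩ := Ideal.dvd_iff_le.2 hKJ
    have h1 : J * m ≤ J * L := by
      rw [← hL]
      exact le_sup_right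
    have h2 : J * L ∣ J * m := Ideal.dvd_iff_le.2 h1
    have hJ0 : J ≠ 0 := hJ
    have h3 : L ∣ m := (mul_dvd_mul_iff_left hJ0).1 h2
    have h4 : m ≤ L := Ideal.dvd_iff_le.1 h3
    have h5 : L = ⊤ := by
      by_contra hne
      have h6 : m = L := hm.eq_of_le hne h4
      apply haJ
      rw [h6, ← hL]
      exact Ideal.mem_sup_left (Ideal.mem_span_singleton_self a)
    rw [h5, Ideal.mul_top] at hL
    rw [← hL] at hb
    obtain ⟨x, hx, c, hc, hxc⟩ := Submodule.mem_sup.1 hb
    obtain ⟨r, rfl⟩ := Ideal.mem_span_singleton'.1 hx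
    obtain ⟨r0, hr0⟩ := hres r
    refine ⟨-r0, 1, Or.inr one_ne_zero, ?_⟩
    have h7 : (-r0) • a + (1 : M) • b = a * (r - algebraMap M R r0) + c := by
      rw [one_smul, neg_smul, Algebra.smul_def, ← hxc]
      ring
    rw [h7]
    exact Ideal.add_mem _ (Ideal.mul_mem_mul ha hr0) hc

theorem RW_step {M R V : Type*} [Field M] [CommRing R] [IsDedekindDomain R] [Algebra M R]
    [AddCommGroup V] [Module M V] [FiniteDimensional M V] (Λ : V →ₗ[M] R)
    (J m : Ideal R) (hJ : J ≠ ⊥) (hm : m.IsMaximal)
    (hres : ∀ r : R, ∃ c : M, r - algebraMap M R c ∈ m) :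
    Module.finrank M (Submodule.comap Λ (J.restrictScalars M)) ≤
      Module.finrank M (Submodule.comap Λ ((J * m : Ideal R).restrictScalars M)) + 1 := by
  classical
  set W := Submodule.comap Λ (J.restrictScalars M) with hW
  set W' := Submodule.comap Λ ((J * m : Ideal R).restrictScalars M) with hW'
  have hle : W' ≤ W := by
    intro v hv
    have h1 : Λ v ∈ J * m := hv
    exact Ideal.mul_le_left h1
  have h1 : Module.finrank M (W ⧸ Submodule.comap W.subtype W') +
      Module.finrank M (Submodule.comap W.subtype W') = Module.finrank M W :=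
    Submodule.finrank_quotient_add_finrank _
  have h2 : Module.finrank M (Submodule.comap W.subtype W') = Module.finrank M W' :=
    LinearEquiv.finrank_eq (Submodule.comapSubtypeEquivOfLe hle)
  have h3 : Module.finrank M (W ⧸ Submodule.comap W.subtype W') ≤ 1 := by
    by_cases hall : ∀ v : W, (v : V) ∈ W'
    · have h4 : Submodule.comap W.subtype W' = ⊤ := by
        rw [eq_top_iff]
        intro v _
        exact hall v
      have h5 : Subsingleton (W ⧸ Submodule.comap W.subtype W') :=
        Submodule.Quotient.subsingleton_iff.2 h4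
      rw [Module.finrank_zero_of_subsingleton]
      exact Nat.zero_le 1
    · push Not at hall
      obtain ⟨v, hv⟩ := hall
      refine finrank_le_one ((Submodule.comap W.subtype W').mkQ v) ?_
      intro w
      obtain ⟨w, rfl⟩ := Submodule.mkQ_surjective _ w
      obtain ⟨c, d, hcd, hmem⟩ := two J m hJ hm hres (Λ v) (Λ w) v.2 w.2
      have hd : d ≠ 0 := by
        rintro rfl
        have hc : c ≠ 0 := hcd.resolve_right (fun h => h rfl)
        apply hv
        rw [zero_smul, add_zero, ← map_smul] at hmem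
        have h6 : c • (v : V) ∈ W' := hmem
        exact (Submodule.smul_mem_iff W' hc).1 h6
      refine ⟨-(d⁻¹ * c), ?_⟩
      rw [← map_smul, ← sub_eq_zero, ← map_sub]
      rw [Submodule.mkQ_apply, Submodule.Quotient.mk_eq_zero, Submodule.mem_comap]
      have h7 : c • (v : V) + d • (w : V) ∈ W' := by
        show Λ (c • (v : V) + d • (w : V)) ∈ J * m
        rw [map_add, map_smul, map_smul]
        exact hmem
      have h8 : W.subtype (-(d⁻¹ * c) • v - w) = -(d⁻¹ • (c • (v : V) + d • (w : V))) := by
        rw [map_sub, map_smul, smul_add, smul_smul, smul_smul, inv_mul_cancel₀ hd, one_smul,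
          neg_smul, neg_add, sub_eq_add_neg]
        rfl
      rw [h8]
      exact Submodule.neg_mem _ (Submodule.smul_mem _ _ h7)
  omega

theorem count {M R V : Type*} [Field M] [CommRing R] [IsDedekindDomain R] [Algebra M R]
    [AddCommGroup V] [Module M V] [FiniteDimensional M V] (Λ : V →ₗ[M] R)
    (s : Multiset (Ideal R)) (hs : ∀ m ∈ s, m.IsMaximal ∧ m ≠ ⊥ ∧
      ∀ r : R, ∃ c : M, r - algebraMap M R c ∈ m) :
    Module.finrank M V ≤
      s.card + Module.finrank M (Submodule.comap Λ ((s.prod : Ideal R).restrictScalars M)) := by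
  classical
  induction s using Multiset.induction_on with
  | empty =>
    rw [Multiset.prod_zero, Multiset.card_zero, zero_add]
    have h1 : Submodule.comap Λ (((1 : Ideal R)).restrictScalars M) = ⊤ := by
      rw [eq_top_iff]
      intro v _
      show Λ v ∈ (1 : Ideal R)
      rw [Ideal.one_eq_top]
      exact Submodule.mem_top
    rw [h1, finrank_top]
  | cons m t ih =>
    have ih' := ih (fun k hk => hs k (Multiset.mem_cons_of_mem hk))
    have hm := hs m (Multiset.mem_cons_self m t)
    have hJ : (t.prod : Ideal R) ≠ ⊥ := by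
      have h0 : (0 : Ideal R) ∉ t := by
        intro h0
        exact (hs 0 (Multiset.mem_cons_of_mem h0)).2.1 rfl
      exact Multiset.prod_ne_zero h0
    have h1 := RW_step Λ t.prod m hJ hm.1 hm.2.2
    rw [Multiset.prod_cons, Multiset.card_cons, mul_comm m t.prod]
    omega

end Pool.Agent.TQU
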