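import Pool.Agent.TSF.Main

/-!
# Splitting `y^2 = n₁ φ(z) + n₀`
-/

namespace Pool.Agent.TQU

open Polynomial IntermediateField Pool.Agent.TSF

universe u

variable {k M : Type u} [Field k] [Field M] [Algebra k M]

theorem split2 [IsAlgClosed M] (T : Set M) (hTf : T.Finite)
    (hT : ∀ S : Set M, (∀ a ∈ S, IsAlgebraic (IntermediateField.adjoin k T) a) →
      Algebra.trdeg k (IntermediateField.adjoin k S) ≤ 1)
    (φ : k[X]) (hφ : (∃ N, 0 < N ∧ φ = X ^ N) ∨ (AdditivePoly φ ∧ φ ≠ 0))
    (y z n1 n0 : M)
    (hn1 : IsAlgebraic (IntermediateField.adjoin k T) n1)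
    (hn0 : IsAlgebraic (IntermediateField.adjoin k T) n0)
    (hy : y ^ 2 = n1 * (aeval z φ) + n0) :
    ∃ K₁ K₂ : IntermediateField k M, K₁.FG ∧ K₂.FG ∧ Algebra.trdeg k K₁ ≤ 1 ∧
      Algebra.trdeg k K₂ ≤ 1 ∧ IntermediateField.adjoin k T ≤ K₁ ∧ y ∈ K₁ ⊔ K₂ ∧
      z ∈ K₁ ⊔ K₂ := by
  have key : ∃ w δ u v : M, IsAlgebraic (IntermediateField.adjoin k T) w ∧
      IsAlgebraic (IntermediateField.adjoin k T) δ ∧
      IsAlgebraic (IntermediateField.adjoin k {u}) v ∧
      (z ∈ IntermediateField.adjoin k {w, u, v}) ∧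
      ((y = δ * v) ∨ (y = -(δ * v))) := by
    have mem_alg : ∀ (F : IntermediateField k M) (a : M), a ∈ F → IsAlgebraic F a :=
      fun F a ha => isAlgebraic_algebraMap (⟨a, ha⟩ : F)
    have sgn : ∀ a : M, y ^ 2 = a ^ 2 → y = a ∨ y = -a := fun a h => sq_eq_sq_iff_eq_or_eq_neg.1 h
    have hsub : ∀ (S : Set M) (a : M), a ∈ S → a ∈ IntermediateField.adjoin k S :=
      fun S a ha => IntermediateField.subset_adjoin k S ha
    by_cases hn1' : n1 = 0
    · obtain ⟨δ, hδ⟩ := exists_sq n0
      refine ⟨1, δ, z, 1, mem_alg _ _ (one_mem _), alg_of_pow _ n0 δ 2 (by norm_num) hδ hn0,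
        mem_alg _ _ (one_mem _), hsub _ _ (by simp), sgn _ ?_⟩
      rw [hy, hn1', mul_one, hδ]; ring
    · set l : M := -n0 / n1 with hl
      have hl' : n1 * l = -n0 := by rw [hl]; field_simp
      have hlalg : IsAlgebraic (IntermediateField.adjoin k T) l := by
        rw [hl, div_eq_mul_inv]
        exact hn0.neg.mul hn1.inv
      rcases hφ with ⟨N, hN, rfl⟩ | ⟨hadd, hφ0⟩
      · have hZ : aeval z (X ^ N : k[X]) = z ^ N := by simp
        rw [hZ] at hy
        by_cases hn0' : n0 = 0
        · obtain ⟨δ, hδ⟩ := exists_sq n1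
          obtain ⟨v, hv⟩ := exists_sq (z ^ N)
          refine ⟨1, δ, z, v, mem_alg _ _ (one_mem _), alg_of_pow _ n1 δ 2 (by norm_num) hδ hn1,
            alg_of_pow _ _ v 2 (by norm_num) hv (mem_alg _ _ (pow_mem (hsub _ _ (by simp)) N)),
            hsub _ _ (by simp), sgn _ ?_⟩
          rw [hy, mul_pow, hδ, hv, hn0']; ring
        · have hl0 : l ≠ 0 := by
            intro h0; rw [h0, mul_zero] at hl'; exact hn0' (by linear_combination hl')
          obtain ⟨w, hw⟩ := IsAlgClosed.exists_pow_nat_eq l hN
          have hw0 : w ≠ 0 := by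
            rintro rfl; rw [zero_pow hN.ne'] at hw; exact hl0 hw.symm
          obtain ⟨δ, hδ⟩ := exists_sq n0
          obtain ⟨v, hv⟩ := exists_sq (1 - (z / w) ^ N)
          refine ⟨w, δ, z / w, v, alg_of_pow _ l w N hN hw hlalg,
            alg_of_pow _ n0 δ 2 (by norm_num) hδ hn0,
            alg_of_pow _ _ v 2 (by norm_num) hv (mem_alg _ _ (sub_mem (one_mem _)
              (pow_mem (hsub _ _ (by simp)) N))), ?_, sgn _ ?_⟩
          · have h1 : z = z / w * w := by field_simp
            rw [h1]
            have h2 : z / w * w / w = z / w := by field_simp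
            rw [h2]
            exact mul_mem (hsub _ _ (by simp)) (hsub _ _ (by simp))
          · have h3 : (z / w) ^ N = z ^ N / l := by rw [div_pow, hw]
            rw [hy, mul_pow, hδ, hv, h3]
            have h4 : n0 = -(n1 * l) := by rw [hl']; ring
            rw [h4]
            field_simp
            ring
      · have h00 : aeval (0 : M) φ = 0 := by
          have := hadd M 0 0
          rw [add_zero] at this
          exact left_eq_add.1 this
        have hdeg : φ.natDegree ≠ 0 := by
          intro h0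
          have h01 := Polynomial.eq_C_of_natDegree_eq_zero h0
          rw [h01, aeval_C] at h00
          have h02 : φ.coeff 0 = 0 := (algebraMap k M).injective (by rw [h00, map_zero])
          exact hφ0 (by rw [h01, h02, C_0])
        obtain ⟨w, hw⟩ : ∃ w : M, aeval w φ = l := by
          have hd : (φ.map (algebraMap k M) - C l).degree ≠ 0 := by
            intro h0
            have h1 : (φ.map (algebraMap k M) - C l).natDegree = φ.natDegree := by
              rw [natDegree_sub_C, natDegree_map]
            have h2 := natDegree_eq_of_degree_eq_some h0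
            rw [h1] at h2
            exact hdeg h2
          obtain ⟨w, hw⟩ := IsAlgClosed.exists_root _ hd
          refine ⟨w, ?_⟩
          simp only [IsRoot, eval_sub, eval_C, eval_map_algebraMap] at hw
          linear_combination hw
        obtain ⟨δ, hδ⟩ := exists_sq n1
        obtain ⟨v, hv⟩ := exists_sq (aeval (z - w) φ)
        refine ⟨w, δ, z - w, v, ?_, alg_of_pow _ n1 δ 2 (by norm_num) hδ hn1, ?_, ?_, sgn _ ?_⟩
        · have h1 : IsAlgebraic (IntermediateField.adjoin k T)
              (aeval w (φ.map (algebraMap k (IntermediateField.adjoin k T)))) := by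
            rw [aeval_map_algebraMap, hw]; exact hlalg
          refine h1.of_aeval _ ?_ ?_
          · rwa [natDegree_map]
          · rw [mem_nonZeroDivisors_iff_ne_zero, leadingCoeff_map]
            exact (_root_.map_ne_zero _).2 (leadingCoeff_ne_zero.2 hφ0)
        · refine alg_of_pow _ _ v 2 (by norm_num) hv (mem_alg _ _ ?_)
          have h5 := (Polynomial.aeval_algHom_apply (IntermediateField.adjoin k {z - w}).val
            (⟨z - w, hsub _ _ (by simp)⟩ : IntermediateField.adjoin k {z - w}) φ)
          have h6 : aeval (z - w) φ = ((aeval (⟨z - w, hsub _ _ (by simp)⟩ :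
            IntermediateField.adjoin k {z - w}) φ : IntermediateField.adjoin k {z - w}) : M) := h5
          rw [h6]
          exact SetLike.coe_mem _
        · have h2 : z = w + (z - w) := by ring
          have h3 := add_mem (hsub {w, z - w, v} w (by simp)) (hsub {w, z - w, v} (z - w) (by simp))
          rwa [← h2] at h3
        · have h7 : aeval z φ = aeval (z - w) φ + l := by
            rw [← hw, ← hadd M (z - w) w, sub_add_cancel]
          rw [hy, mul_pow, hδ, hv]
          have h8 : n0 = -(n1 * l) := by rw [hl']; ring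
          rw [h8, h7]; ring
  obtain ⟨w, δ, u, v, hw, hδ, hv, hz, hy'⟩ := key
  refine ⟨IntermediateField.adjoin k (T ∪ {w, δ}), IntermediateField.adjoin k {u, v},
    IntermediateField.fg_adjoin_of_finite (hTf.union (Set.toFinite _)),
    IntermediateField.fg_adjoin_of_finite (Set.toFinite _), ?_, ?_,
    IntermediateField.adjoin.mono k _ _ Set.subset_union_left, ?_⟩
  · refine hT _ ?_
    rintro a (ha | rfl | rfl)
    · exact isAlgebraic_algebraMap (⟨a, IntermediateField.subset_adjoin k _ ha⟩ :
        IntermediateField.adjoin k T)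
    · exact hw
    · exact hδ
  · refine trdeg_adjoin_le u _ ?_
    rintro a (rfl | rfl)
    · exact isAlgebraic_algebraMap (⟨a, IntermediateField.subset_adjoin k _ (by simp)⟩ :
        IntermediateField.adjoin k {a})
    · exact hv
  · set K₁ := IntermediateField.adjoin k (T ∪ {w, δ}) with hK₁
    set K₂ := IntermediateField.adjoin k {u, v} with hK₂
    have h1 : ∀ a ∈ T ∪ ({w, δ} : Set M), a ∈ K₁ ⊔ K₂ := fun a ha =>
      (le_sup_left : K₁ ≤ K₁ ⊔ K₂) (IntermediateField.subset_adjoin k _ ha)
    have h2 : ∀ a ∈ ({u, v} : Set M), a ∈ K₁ ⊔ K₂ := fun a ha =>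
      (le_sup_right : K₂ ≤ K₁ ⊔ K₂) (IntermediateField.subset_adjoin k _ ha)
    have hw' := h1 w (by simp)
    have hδ' := h1 δ (by simp)
    have hu' := h2 u (by simp)
    have hv' := h2 v (by simp)
    have hz' : z ∈ K₁ ⊔ K₂ := by
      have : IntermediateField.adjoin k {w, u, v} ≤ K₁ ⊔ K₂ := by
        rw [IntermediateField.adjoin_le_iff]
        rintro a (rfl | rfl | rfl)
        · exact hw'
        · exact hu'
        · exact hv'
      exact this hz
    refine ⟨?_, hz'⟩
    have hmem : δ * v ∈ K₁ ⊔ K₂ := mul_mem hδ' hv'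
    rcases hy' with h | h
    · rw [h]; exact hmem
    · rw [h]; exact neg_mem hmem

end Pool.Agent.TQU
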