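import Pool.Agent.TQU.Core
import Pool.Agent.TQU.Spl

/-!
# The pair of points is defined over a compositum of two function fields of curves
-/

namespace Pool.Agent.TQU

open Polynomial IntermediateField Pool.Agent.TSF

universe u

section

variable {k M : Type u} [Field k] [Field M] [Algebra k M]

/-- coefficients in a subfield -/
theorem lin_coeff_mem_field (f : MvPolynomial (Fin 2) k) (K₀ : IntermediateField k M)
    (b d : Fin 2 → M) (hb : ∀ i, b i ∈ K₀) (hd : ∀ i, d i ∈ K₀) (n : ℕ) :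
    (lin f b d).coeff n ∈ K₀ := by
  have h := coeff_lin_map f K₀.val (fun i => (⟨b i, hb i⟩ : K₀)) (fun i => (⟨d i, hd i⟩ : K₀)) n
  have h2 : (lin f b d).coeff n = K₀.val
      ((lin f (fun i => (⟨b i, hb i⟩ : K₀)) (fun i => (⟨d i, hd i⟩ : K₀))).coeff n) := by
    rw [← h]; rfl
  rw [h2]
  exact SetLike.coe_mem _

theorem coeffs_of_form (e A c x x' : M) :
    (C e + C A * ((X - C x) * (X - C x')) ^ 2 + C c * ((X - C x) * (X - C x')) : M[X]) =
      C (e + A * (x * x') ^ 2 + c * (x * x')) + C (-((x + x') * (2 * A * (x * x') + c))) * X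
        + C (A * ((x + x') ^ 2 + 2 * (x * x')) + c) * X ^ 2 + C (-(2 * A * (x + x'))) * X ^ 3
        + C A * X ^ 4 := by
  simp only [C_add, C_neg, C_mul, C_pow, map_ofNat]
  ring

theorem coeff_explicit (a0 a1 a2 a3 a4 : M) :
    let g : M[X] := C a0 + C a1 * X + C a2 * X ^ 2 + C a3 * X ^ 3 + C a4 * X ^ 4
    g.coeff 0 = a0 ∧ g.coeff 1 = a1 ∧ g.coeff 2 = a2 ∧ g.coeff 3 = a3 ∧ g.coeff 4 = a4 := by
  refine ⟨?_, ?_, ?_, ?_, ?_⟩ <;> simp [coeff_X, coeff_X_pow, coeff_C]

theorem line_lemma [IsAlgClosed M] (h2 : (2 : M) ≠ 0) (f : MvPolynomial (Fin 2) k)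
    (T : Set M) (hTf : T.Finite)
    (hT : ∀ S : Set M, (∀ a ∈ S, IsAlgebraic (IntermediateField.adjoin k T) a) →
      Algebra.trdeg k (IntermediateField.adjoin k S) ≤ 1)
    (b d : Fin 2 → M) (hb : ∀ i, b i ∈ IntermediateField.adjoin k T)
    (hd : ∀ i, d i ∈ IntermediateField.adjoin k T)
    (φ : k[X]) (hφ : (∃ N, 0 < N ∧ φ = X ^ N) ∨ (AdditivePoly φ ∧ φ ≠ 0))
    (z x x' A c : M) (hA : A ≠ 0)
    (hg : lin f b d = C (aeval z φ) + C A * ((X - C x) * (X - C x')) ^ 2
      + C c * ((X - C x) * (X - C x'))) :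
    FromCurves k z (fun i => b i + x * d i) (fun i => b i + x' * d i) := by
  set K₀ := IntermediateField.adjoin k T with hK₀
  have hco := lin_coeff_mem_field f K₀ b d hb hd
  rw [hg, coeffs_of_form] at hco
  obtain ⟨c0, c1, c2, c3, c4⟩ := coeff_explicit (aeval z φ + A * (x * x') ^ 2 + c * (x * x'))
    (-((x + x') * (2 * A * (x * x') + c))) (A * ((x + x') ^ 2 + 2 * (x * x')) + c)
    (-(2 * A * (x + x'))) A
  have m0 := hco 0
  have m2 := hco 2
  have m3 := hco 3
  have m4 := hco 4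
  rw [c0] at m0
  rw [c2] at m2
  rw [c3] at m3
  rw [c4] at m4
  have h2K : (2 : M) ∈ K₀ := by
    have := IntermediateField.natCast_mem K₀ 2
    exact_mod_cast this
  have hσ : x + x' ∈ K₀ := by
    have h1 := div_mem (neg_mem m3) (mul_mem h2K m4)
    have h3 : - -(2 * A * (x + x')) / (2 * A) = x + x' := by field_simp
    rwa [h3] at h1
  have he : x * x' + c / (2 * A) ∈ K₀ := by
    have h1 := div_mem (sub_mem (div_mem m2 m4) (pow_mem hσ 2)) h2K
    have h3 : ((A * ((x + x') ^ 2 + 2 * (x * x')) + c) / A - (x + x') ^ 2) / 2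
        = x * x' + c / (2 * A) := by field_simp; ring
    rwa [h3] at h1
  have hl : aeval z φ - c ^ 2 / (4 * A) ∈ K₀ := by
    have h1 := sub_mem m0 (mul_mem m4 (pow_mem he 2))
    have h4 : (4 : M) ≠ 0 := by
      have : (4 : M) = 2 * 2 := by norm_num
      rw [this]; exact mul_ne_zero h2 h2
    have h3 : aeval z φ + A * (x * x') ^ 2 + c * (x * x') - A * (x * x' + c / (2 * A)) ^ 2
        = aeval z φ - c ^ 2 / (4 * A) := by field_simp; ring
    rwa [h3] at h1
  have mem_alg : ∀ a : M, a ∈ K₀ → IsAlgebraic K₀ a :=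
    fun a ha => isAlgebraic_algebraMap (⟨a, ha⟩ : K₀)
  obtain ⟨K₁, K₂, hfg1, hfg2, ht1, ht2, hle, hy, hz⟩ := split2 T hTf hT φ hφ (c / (2 * A)) z
    (A⁻¹) (-((aeval z φ - c ^ 2 / (4 * A)) / A)) (mem_alg _ (inv_mem m4))
    (mem_alg _ (neg_mem (div_mem hl m4))) (by
      have h4 : (4 : M) ≠ 0 := by
        have : (4 : M) = 2 * 2 := by norm_num
        rw [this]; exact mul_ne_zero h2 h2
      field_simp; ring)
  refine ⟨K₁, K₂, hfg1, hfg2, ht1, ht2, hz, ?_, ?_⟩
  all_goals
    have hK : ∀ a : M, a ∈ K₀ → a ∈ K₁ ⊔ K₂ := fun a ha =>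
      (le_sup_left : K₁ ≤ K₁ ⊔ K₂) (hle ha)
    have hπ : x * x' ∈ K₁ ⊔ K₂ := by
      have h1 := sub_mem (hK _ he) hy
      rwa [add_sub_cancel_right] at h1
  · intro i
    have h1 := add_mem (mul_mem (hK _ h2K) (hK _ (hb i))) (mul_mem (hK _ hσ) (hK _ (hd i)))
    have h3 : 2 * b i + (x + x') * d i = (b i + x * d i) + (b i + x' * d i) := by ring
    rwa [h3] at h1
  · intro i j
    have h1 := add_mem (add_mem (mul_mem (mul_mem (hK _ h2K) (hK _ (hb i))) (hK _ (hb j)))
      (mul_mem (hK _ hσ) (add_mem (mul_mem (hK _ (hb i)) (hK _ (hd j)))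
        (mul_mem (hK _ (hb j)) (hK _ (hd i))))))
      (mul_mem (mul_mem (mul_mem (hK _ h2K) hπ) (hK _ (hd i))) (hK _ (hd j)))
    have h3 : 2 * b i * b j + (x + x') * (b i * d j + b j * d i) + 2 * (x * x') * d i * d j
        = (b i + x * d i) * (b j + x' * d j) + (b j + x * d j) * (b i + x' * d i) := by ring
    rwa [h3] at h1

/-- the seminvariant -/
def EE {A : Type*} [CommRing A] (g : A[X]) : A :=
  g.coeff 3 ^ 3 - 4 * g.coeff 4 * g.coeff 3 * g.coeff 2 + 8 * g.coeff 4 ^ 2 * g.coeff 1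

theorem EE_form (e A c x x' : M) :
    EE (C e + C A * ((X - C x) * (X - C x')) ^ 2 + C c * ((X - C x) * (X - C x')) : M[X]) = 0 := by
  rw [coeffs_of_form]
  obtain ⟨c0, c1, c2, c3, c4⟩ := coeff_explicit (e + A * (x * x') ^ 2 + c * (x * x'))
    (-((x + x') * (2 * A * (x * x') + c))) (A * ((x + x') ^ 2 + 2 * (x * x')) + c)
    (-(2 * A * (x + x'))) A
  rw [EE, c1, c2, c3, c4]
  ring

theorem EE_comp (g : M[X]) (hg : g.natDegree ≤ 4) (a b : M) :
    EE (g.comp (C a * X + C b)) = a ^ 9 * EE g := by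
  have h := g.as_sum_range' 5 (Nat.lt_succ_of_le hg)
  simp only [Finset.sum_range_succ, Finset.sum_range_zero, zero_add, ← C_mul_X_pow_eq_monomial,
    pow_zero, mul_one, pow_one] at h
  set g0 := g.coeff 0
  set g1 := g.coeff 1 with hg1
  set g2 := g.coeff 2 with hg2
  set g3 := g.coeff 3 with hg3
  set g4 := g.coeff 4 with hg4
  have h1 : g.comp (C a * X + C b) = C (g0 + g1 * b + g2 * b ^ 2 + g3 * b ^ 3 + g4 * b ^ 4)
      + C (a * (g1 + 2 * g2 * b + 3 * g3 * b ^ 2 + 4 * g4 * b ^ 3)) * X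
      + C (a ^ 2 * (g2 + 3 * g3 * b + 6 * g4 * b ^ 2)) * X ^ 2
      + C (a ^ 3 * (g3 + 4 * g4 * b)) * X ^ 3 + C (a ^ 4 * g4) * X ^ 4 := by
    rw [h]
    simp only [add_comp, mul_comp, C_comp, X_comp, pow_comp, C_add, C_mul, C_pow, map_ofNat]
    ring
  obtain ⟨c0, c1, c2, c3, c4⟩ := coeff_explicit
    (g0 + g1 * b + g2 * b ^ 2 + g3 * b ^ 3 + g4 * b ^ 4)
    (a * (g1 + 2 * g2 * b + 3 * g3 * b ^ 2 + 4 * g4 * b ^ 3))
    (a ^ 2 * (g2 + 3 * g3 * b + 6 * g4 * b ^ 2))
    (a ^ 3 * (g3 + 4 * g4 * b)) (a ^ 4 * g4)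
  rw [h1, EE, EE, c1, c2, c3, c4, ← hg1, ← hg2, ← hg3, ← hg4]
  ring

theorem EE_lin_map {A B : Type*} [CommRing A] [CommRing B] [Algebra k A] [Algebra k B]
    (f : MvPolynomial (Fin 2) k) (ψ : A →ₐ[k] B) (p δ : Fin 2 → A) :
    EE (lin f (fun i => ψ (p i)) (fun i => ψ (δ i))) = ψ (EE (lin f p δ)) := by
  simp only [EE, coeff_lin_map, map_sub, map_add, map_mul, map_pow, map_ofNat]

/-- evaluation of polynomials in two variables -/
noncomputable def ev2 (s b : M) : k[X][X] →ₐ[k] M :=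
  { Polynomial.eval₂RingHom (Polynomial.aeval (R := k) s : k[X] →ₐ[k] M).toRingHom b with
    commutes' := by
      intro r
      have : (algebraMap k k[X][X]) r = C (C r) := rfl
      rw [this]
      simp }

theorem ev2_apply (s b : M) (BP : k[X][X]) :
    ev2 (k := k) s b BP
      = Polynomial.eval₂ (Polynomial.aeval (R := k) s : k[X] →ₐ[k] M).toRingHom b BP := rfl

/-- the bivariate polynomial -/
noncomputable def BPol (f : MvPolynomial (Fin 2) k) : k[X][X] :=
  EE (lin f (![0, X] : Fin 2 → k[X][X]) ![1, C X])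

theorem ev2_BPol (f : MvPolynomial (Fin 2) k) (s b : M) :
    ev2 s b (BPol f) = EE (lin f (![0, b] : Fin 2 → M) ![1, s]) := by
  rw [BPol, ← EE_lin_map]
  congr 2
  · funext i
    fin_cases i
    · simp
    · simp [ev2_apply]
  · funext i
    fin_cases i
    · simp
    · simp [ev2_apply]

theorem dep (f : MvPolynomial (Fin 2) k) (s b : M)
    (h : EE (lin f (![0, b] : Fin 2 → M) ![1, s]) = 0)
    (hne : ∃ s' b' : M, EE (lin f (![0, b'] : Fin 2 → M) ![1, s']) ≠ 0) :
    IsAlgebraic k s ∨ IsAlgebraic (IntermediateField.adjoin k {s}) b := by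
  by_cases hs : IsAlgebraic k s
  · exact Or.inl hs
  right
  have hs' : Transcendental k s := hs
  let s1 : IntermediateField.adjoin k {s} := ⟨s, IntermediateField.subset_adjoin k {s} rfl⟩
  let i : k[X] →+* IntermediateField.adjoin k {s} :=
    (Polynomial.aeval (R := k) s1 : k[X] →ₐ[k] _).toRingHom
  have hi : Function.Injective i := by
    have h1 : Transcendental k s1 := by
      intro halg
      exact hs' (halg.algebraMap (A := M))
    exact transcendental_iff_injective.1 h1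
  have hiM : (algebraMap (IntermediateField.adjoin k {s}) M).comp i
      = (Polynomial.aeval (R := k) s : k[X] →ₐ[k] M).toRingHom := by
    refine Polynomial.ringHom_ext (fun a => ?_) ?_
    · simp only [i, RingHom.comp_apply, AlgHom.toRingHom_eq_coe, RingHom.coe_coe, aeval_C]
      exact (IsScalarTower.algebraMap_apply k (IntermediateField.adjoin k {s}) M a).symm
    · simp [i, s1]
  refine ⟨(BPol f).map i, ?_, ?_⟩
  · rw [Ne, Polynomial.map_eq_zero_iff hi]
    intro h0
    obtain ⟨s', b', hne'⟩ := hne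
    refine hne' ?_
    rw [← ev2_BPol, h0, map_zero]
  · rw [Polynomial.aeval_def, Polynomial.eval₂_map, hiM, ← ev2_apply, ev2_BPol, h]

theorem trdeg_pair' (f : MvPolynomial (Fin 2) k) (s b : M)
    (h : EE (lin f (![0, b] : Fin 2 → M) ![1, s]) = 0)
    (hne : ∃ s' b' : M, EE (lin f (![0, b'] : Fin 2 → M) ![1, s']) ≠ 0) (S : Set M)
    (hS : ∀ a ∈ S, IsAlgebraic (IntermediateField.adjoin k {s, b}) a) :
    Algebra.trdeg k (IntermediateField.adjoin k S) ≤ 1 := by
  have hpar : ∃ θ : M, IsAlgebraic (IntermediateField.adjoin k {θ}) s ∧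
      IsAlgebraic (IntermediateField.adjoin k {θ}) b := by
    rcases dep f s b h hne with h1 | h1
    · exact ⟨b, h1.tower_top _, isAlgebraic_algebraMap
        (⟨b, IntermediateField.subset_adjoin k {b} rfl⟩ : IntermediateField.adjoin k {b})⟩
    · exact ⟨s, isAlgebraic_algebraMap
        (⟨s, IntermediateField.subset_adjoin k {s} rfl⟩ : IntermediateField.adjoin k {s}), h1⟩
  obtain ⟨θ, h1, h2⟩ := hpar
  refine trdeg_adjoin_le θ S (fun a ha => ?_)
  refine alg_trans _ (IntermediateField.adjoin k {s, b}) {s, b} rfl ?_ a (hS a ha)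
  rintro a (rfl | rfl)
  · exact h1
  · exact h2

theorem lin_map_field (f : MvPolynomial (Fin 2) k) (p δ : Fin 2 → M) :
    lin (MvPolynomial.map (algebraMap k M) f) p δ = lin f p δ := by
  rw [lin, lin, MvPolynomial.aeval_map_algebraMap]

theorem EE_ne [IsAlgClosed M] (f : MvPolynomial (Fin 2) k) (hf : f.totalDegree ≤ 4)
    (P : Fin 2 → M) (hinf : ∀ δ : Fin 2 → M, δ ≠ 0 → 3 ≤ (lin f P δ).natDegree) :
    ∃ s' b' : M, EE (lin f (![0, b'] : Fin 2 → M) ![1, s']) ≠ 0 := by
  have hinfinite : Infinite M := IsAlgClosed.instInfinite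
  set F := MvPolynomial.map (algebraMap k M) f with hF
  -- a direction with `c₄ = 0`
  obtain ⟨δ, hδ, h4⟩ : ∃ δ : Fin 2 → M, δ ≠ 0 ∧ (lin f P δ).coeff 4 = 0 := by
    by_cases h0 : (hat P F).coeff 4 = 0
    · refine ⟨Function.const _ 1, fun h => one_ne_zero (congrFun h 0), ?_⟩
      rw [← lin_map_field, ← eval_coeff_hat, h0, map_zero]
    · have hu : ¬ IsUnit ((hat P F).coeff 4) := by
        intro hu
        have h3 : MvPolynomial.eval (0 : Fin 2 → M) ((hat P F).coeff 4) = 0 := by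
          rw [eval_coeff_hat, lin_coeff_of_zero _ _ _ (by norm_num)]
        exact (hu.map (MvPolynomial.eval (0 : Fin 2 → M))).ne_zero h3
      obtain ⟨δ, hδ, h⟩ := exists_zero _ h0 hu
      refine ⟨δ, hδ, ?_⟩
      rw [← lin_map_field, ← eval_coeff_hat, h]
  have h3 : (lin f P δ).coeff 3 ≠ 0 := by
    have h5 := hinf δ hδ
    have h6 := lin_natDegree_le f hf P δ
    have h7 : (lin f P δ).natDegree ≠ 4 := by
      intro h8
      have h9 : (lin f P δ) ≠ 0 := by
        intro h10; rw [h10, natDegree_zero] at h5; omega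
      refine leadingCoeff_ne_zero.2 h9 ?_
      rw [leadingCoeff, h8, h4]
    have h8 : (lin f P δ).natDegree = 3 := by omega
    have h9 : (lin f P δ) ≠ 0 := by
      intro h10; rw [h10, natDegree_zero] at h5; omega
    have h10 := leadingCoeff_ne_zero.2 h9
    rwa [leadingCoeff, h8] at h10
  have hE : EE (lin f P δ) ≠ 0 := by
    rw [EE, h4]
    have : (lin f P δ).coeff 3 ^ 3 ≠ 0 := pow_ne_zero _ h3
    simpa using this
  -- perturb
  let U : M[X] := EE (lin f (fun i => C (P i)) (fun i => C (δ i) + X * C ((![1, 0] : Fin 2 → M) i)))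
  have hU : ∀ t : M, U.eval t
      = EE (lin f P (fun i => δ i + t * (![1, 0] : Fin 2 → M) i)) := by
    intro t
    have h5 := EE_lin_map f ((Polynomial.aeval t : M[X] →ₐ[M] M).restrictScalars k)
      (fun i => C (P i)) (fun i => C (δ i) + X * C ((![1, 0] : Fin 2 → M) i))
    have h6 : (fun i => ((Polynomial.aeval t : M[X] →ₐ[M] M).restrictScalars k) (C (P i))) = P := by
      funext i; simp
    have h7 : (fun i => ((Polynomial.aeval t : M[X] →ₐ[M] M).restrictScalars k)
        (C (δ i) + X * C ((![1, 0] : Fin 2 → M) i)))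
        = fun i => δ i + t * (![1, 0] : Fin 2 → M) i := by
      funext i; simp; ring
    rw [h6, h7] at h5
    rw [h5]
    simp [U, Polynomial.coe_aeval_eq_eval]
  have hU0 : U ≠ 0 := by
    intro h
    apply hE
    have h5 := hU 0
    rw [h, eval_zero] at h5
    rw [h5]
    congr 2
    funext i
    ring
  obtain ⟨t, ht⟩ : ∃ t : M, (U * (X + C (δ 0))).eval t ≠ 0 := by
    by_contra hcon
    push Not at hcon
    have h5 : U * (X + C (δ 0)) = 0 := Polynomial.funext (by simpa using hcon)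
    rcases mul_eq_zero.1 h5 with h6 | h6
    · exact hU0 h6
    · exact X_add_C_ne_zero _ h6
  rw [eval_mul, eval_add, eval_X, eval_C] at ht
  have ht1 := left_ne_zero_of_mul ht
  have ht2 := right_ne_zero_of_mul ht
  rw [hU] at ht1
  set δ' : Fin 2 → M := fun i => δ i + t * (![1, 0] : Fin 2 → M) i with hδ'
  have hδ0 : δ' 0 ≠ 0 := by
    simp only [hδ', Matrix.cons_val_zero, mul_one]
    rwa [add_comm]
  refine ⟨δ' 1 / δ' 0, P 1 - δ' 1 / δ' 0 * P 0, ?_⟩
  intro h5
  apply ht1
  have h6 : lin f P δ' = (lin f (![0, P 1 - δ' 1 / δ' 0 * P 0] : Fin 2 → M)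
      ![1, δ' 1 / δ' 0]).comp (C (δ' 0) * X + C (P 0)) := by
    rw [lin_comp, lin]
    congr 2
    funext i
    fin_cases i
    · simp
      ring
    · simp only [Fin.mk_one, Matrix.cons_val_one, Matrix.cons_val_fin_one, C_sub, C_mul]
      have h7 : C (δ' 1) = C (δ' 0) * C (δ' 1 / δ' 0) := by
        rw [← C_mul]; congr 1; field_simp
      rw [h7]
      ring
  rw [h6, EE_comp _ (lin_natDegree_le f hf _ _), h5, mul_zero]

/-- the restriction in another parametrization -/
theorem line_form (f : MvPolynomial (Fin 2) k) (P δ b d : Fin 2 → M) (e0 x e ρ a c : M)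
    (he : e ≠ 0) (hP : ∀ i, P i = b i + x * d i) (hδ : ∀ i, δ i = e * d i)
    (h : lin f P δ = C e0 + C a * (X ^ 2 - C ρ * X) ^ 2 + C c * (X ^ 2 - C ρ * X)) :
    lin f b d = C e0 + C (a / e ^ 4) * ((X - C x) * (X - C (x + ρ * e))) ^ 2
      + C (c / e ^ 2) * ((X - C x) * (X - C (x + ρ * e))) := by
  have h1 : lin f b d = (lin f P δ).comp (C e⁻¹ * (X - C x)) := by
    rw [lin_comp, lin]
    congr 2
    funext i
    rw [hP, hδ]
    have h2 : C e⁻¹ * (C e : M[X]) = 1 := by rw [← C_mul, inv_mul_cancel₀ he, C_1]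
    simp only [C_add, C_mul]
    linear_combination (-(C (d i)) * (X - C x)) * h2
  rw [h1, h]
  simp only [add_comp, mul_comp, C_comp, X_comp, pow_comp, sub_comp, C_add, C_mul]
  have h2 : C e⁻¹ * (C e : M[X]) = 1 := by rw [← C_mul, inv_mul_cancel₀ he, C_1]
  have h3 : (C (a / e ^ 4) : M[X]) = C a * (C e⁻¹) ^ 4 := by
    rw [← C_pow, ← C_mul]; congr 1; field_simp
  have h4 : (C (c / e ^ 2) : M[X]) = C c * (C e⁻¹) ^ 2 := by
    rw [← C_pow, ← C_mul]; congr 1; field_simp
  rw [h3, h4]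
  have h5 : (C e⁻¹ * (X - C x)) ^ 2 - C ρ * (C e⁻¹ * (X - C x))
      = (C e⁻¹) ^ 2 * ((X - C x) * (X - (C x + C ρ * C e))) := by
    linear_combination (C ρ * C e⁻¹ * (X - C x)) * h2
  rw [h5]
  ring

theorem lin_sub_C (f : MvPolynomial (Fin 2) k) (c : M) (P δ : Fin 2 → M) :
    lin (MvPolynomial.map (algebraMap k M) f - MvPolynomial.C c) P δ = lin f P δ - C c := by
  rw [lin, map_sub, ← lin, lin_map_field]
  simp

theorem fromCurves [IsAlgClosed M] (h2 : (2 : M) ≠ 0) (f : MvPolynomial (Fin 2) k)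
    (hf : f.totalDegree ≤ 4) (P Q : Fin 2 → M)
    (hinf : ∀ δ : Fin 2 → M, δ ≠ 0 → 3 ≤ (lin f P δ).natDegree)
    (φ : k[X]) (hφ : (∃ N, 0 < N ∧ φ = X ^ N) ∨ (AdditivePoly φ ∧ φ ≠ 0))
    (z : M) (hz : aeval z φ = MvPolynomial.aeval P f)
    (hs : SymPair (MvPolynomial.map (algebraMap k M) f
      - MvPolynomial.C (MvPolynomial.aeval P f)) P Q) :
    FromCurves k z P Q := by
  obtain ⟨δ, hδ, ρ, a, c, ha, hQ, hlin⟩ := hs
  rw [lin_sub_C, sub_eq_iff_eq_add, ← hz] at hlin
  have hlin' : lin f P δ = C (aeval z φ) + C a * (X ^ 2 - C ρ * X) ^ 2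
      + C c * (X ^ 2 - C ρ * X) := by rw [hlin]; ring
  by_cases h0 : δ 0 = 0
  · -- vertical line
    have h1 : δ 1 ≠ 0 := by
      intro h1
      apply hδ
      funext i
      fin_cases i
      · exact h0
      · exact h1
    have hform := line_form f P δ ![P 0, 0] ![0, 1] (aeval z φ) (P 1) (δ 1) ρ a c h1
      (by intro i; fin_cases i <;> simp) (by intro i; fin_cases i <;> simp [h0]) hlin'
    have hmem : P 0 ∈ IntermediateField.adjoin k {P 0} :=
      IntermediateField.subset_adjoin k _ rfl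
    have hfin := line_lemma h2 f {P 0} (Set.toFinite _)
      (fun S hS => trdeg_adjoin_le (P 0) S hS) ![P 0, 0] ![0, 1]
      (by
        intro i
        fin_cases i
        · exact hmem
        · exact zero_mem _)
      (by
        intro i
        fin_cases i
        · exact zero_mem _
        · exact one_mem _) φ hφ z (P 1) (P 1 + ρ * δ 1) (a / δ 1 ^ 4) (c / δ 1 ^ 2)
      (div_ne_zero ha (pow_ne_zero _ h1)) hform
    have e1 : (fun i => (![P 0, 0] : Fin 2 → M) i + P 1 * (![0, 1] : Fin 2 → M) i) = P := by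
      funext i; fin_cases i <;> simp
    have e2 : (fun i => (![P 0, 0] : Fin 2 → M) i + (P 1 + ρ * δ 1) * (![0, 1] : Fin 2 → M) i)
        = Q := by
      funext i
      rw [hQ]
      fin_cases i
      · simp [h0]
      · simp
    rwa [e1, e2] at hfin
  · set s := δ 1 / δ 0 with hsd
    set β := P 1 - s * P 0 with hβ
    have hform := line_form f P δ ![0, β] ![1, s] (aeval z φ) (P 0) (δ 0) ρ a c h0
      (by
        intro i
        fin_cases i
        · simp
        · simp only [Fin.mk_one, Matrix.cons_val_one, Matrix.cons_val_fin_one, hβ]; ring)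
      (by
        intro i
        fin_cases i
        · simp
        · simp only [Fin.mk_one, Matrix.cons_val_one, Matrix.cons_val_fin_one, hsd]
          field_simp) hlin'
    have hEE : EE (lin f (![0, β] : Fin 2 → M) ![1, s]) = 0 := by
      rw [hform]; exact EE_form _ _ _ _ _
    have hsmem : s ∈ IntermediateField.adjoin k {s, β} :=
      IntermediateField.subset_adjoin k _ (by simp)
    have hβmem : β ∈ IntermediateField.adjoin k {s, β} :=
      IntermediateField.subset_adjoin k _ (by simp)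
    have hfin := line_lemma h2 f {s, β} (Set.toFinite _)
      (fun S hS => trdeg_pair' f s β hEE (EE_ne f hf P hinf) S hS) ![0, β] ![1, s]
      (by
        intro i
        fin_cases i
        · exact zero_mem _
        · exact hβmem)
      (by
        intro i
        fin_cases i
        · exact one_mem _
        · exact hsmem) φ hφ z (P 0) (P 0 + ρ * δ 0) (a / δ 0 ^ 4) (c / δ 0 ^ 2)
      (div_ne_zero ha (pow_ne_zero _ h0)) hform
    have e1 : (fun i => (![0, β] : Fin 2 → M) i + P 0 * (![1, s] : Fin 2 → M) i) = P := by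
      funext i
      fin_cases i
      · simp
      · simp only [Fin.mk_one, Matrix.cons_val_one, Matrix.cons_val_fin_one, hβ]; ring
    have e2 : (fun i => (![0, β] : Fin 2 → M) i + (P 0 + ρ * δ 0) * (![1, s] : Fin 2 → M) i)
        = Q := by
      funext i
      rw [hQ]
      fin_cases i
      · simp
      · simp only [Fin.mk_one, Matrix.cons_val_one, Matrix.cons_val_fin_one, hβ, hsd]
        field_simp
        ring
    rwa [e1, e2] at hfin

end

end Pool.Agent.TQU
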