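import Pool.Agent.TQU.Ninep
import Pool.Agent.TQU.FC

/-!
# Surfaces `φ(z) = f(x,y)`, `f` of degree four
-/

namespace Pool.Agent.TQU

open Polynomial Pool.Agent.TSF

universe u

theorem eval_levelPoly {k M : Type*} [Field k] [Field M] [Algebra k M]
    (f : MvPolynomial (Fin 2) k) (P Q : Fin 2 → M) :
    MvPolynomial.eval Q (levelPoly f P) = MvPolynomial.aeval Q f - MvPolynomial.aeval P f := by
  rw [levelPoly, map_sub, MvPolynomial.eval_C, MvPolynomial.eval_map, ← MvPolynomial.aeval_def]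

theorem quartic (k M : Type u) [Field k] [Field M] [Algebra k M] [IsAlgClosed M]
    (hk : (2 : k) ≠ 0) (f : MvPolynomial (Fin 2) k) (hf : f.totalDegree ≤ 4)
    (φ : k[X]) (hφ : (∃ N, 0 < N ∧ φ = X ^ N) ∨ (AddPoly φ ∧ φ ≠ 0))
    (P : Fin 2 → M) (z : M) (hz : aeval z φ = MvPolynomial.aeval P f)
    (hinf : ∀ δ : Fin 2 → M, δ ≠ 0 → 3 ≤ (lin f P δ).natDegree)
    (hsm : IsDedekindDomain (CR (levelPoly f P))) :
    ∃ s : Multiset (Fin 2 → M), 6 ≤ s.card ∧
      (∀ Q ∈ s, MvPolynomial.aeval Q f = MvPolynomial.aeval P f ∧ FromCurves k z P Q) ∧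
      ((ptIdeal (levelPoly f P) P) ^ 3 * (s.map (ptIdeal (levelPoly f P))).prod).IsPrincipal := by
  have hk' : (2 : M) ≠ 0 := by
    intro h
    exact hk ((algebraMap k M).injective (by rw [map_zero, map_ofNat, h]))
  set F := levelPoly f P with hF
  have hFd : F.totalDegree ≤ 4 := by
    rw [hF, levelPoly]
    refine le_trans (MvPolynomial.totalDegree_sub _ _) (max_le ?_ (by rw [MvPolynomial.totalDegree_C]; exact Nat.zero_le _))
    exact le_trans (Finset.sup_mono (MvPolynomial.support_map_subset _ _)) hf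
  have hP : MvPolynomial.eval P F = 0 := by rw [hF, eval_levelPoly, sub_self]
  have hinf' : ∀ δ : Fin 2 → M, δ ≠ 0 →
      ¬ ((lin F P δ).coeff 4 = 0 ∧ (lin F P δ).coeff 3 = 0) := by
    intro δ hδ ⟨h4, h3⟩
    rw [hF, levelPoly, lin_sub_C] at h4 h3
    rw [coeff_sub, coeff_C, if_neg (by norm_num), sub_zero] at h4 h3
    have h5 := hinf δ hδ
    have h6 := lin_natDegree_le f hf P δ
    have h9 : (lin f P δ) ≠ 0 := by
      intro h10; rw [h10, natDegree_zero] at h5; omega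
    have h10 := leadingCoeff_ne_zero.2 h9
    rw [leadingCoeff] at h10
    have h7 : (lin f P δ).natDegree = 3 ∨ (lin f P δ).natDegree = 4 := by omega
    rcases h7 with h7 | h7
    · rw [h7] at h10; exact h10 h3
    · rw [h7] at h10; exact h10 h4
  obtain ⟨s, hs, hs2, hs3⟩ := partners F hFd P hP hinf'
  refine ⟨s, hs, ?_, hs3⟩
  intro Q hQ
  obtain ⟨h1, h2⟩ := hs2 Q hQ
  refine ⟨?_, fromCurves hk' f hf P Q hinf φ hφ z hz h2⟩
  rw [hF, eval_levelPoly] at h1
  exact sub_eq_zero.1 h1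

end Pool.Agent.TQU
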