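import Pool.Agent.TQU.Defs

/-!
# Restrictions of a plane polynomial to lines
-/

namespace Pool.Agent.TQU

open Polynomial

universe u

section

variable {k A B : Type*} [CommRing k] [CommRing A] [CommRing B] [Algebra k A] [Algebra k B]
  (f : MvPolynomial (Fin 2) k)

theorem lin_map (ψ : A →ₐ[k] B) (p δ : Fin 2 → A) :
    (lin f p δ).map (ψ : A →+* B) = lin f (fun i => ψ (p i)) (fun i => ψ (δ i)) := by
  have h : (Polynomial.mapAlgHom ψ) (lin f p δ) = lin f (fun i => ψ (p i)) (fun i => ψ (δ i)) := by
    rw [lin, lin, MvPolynomial.comp_aeval_apply]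
    congr 2
    funext i
    simp
  rw [← h]
  rfl

theorem coeff_lin_map (ψ : A →ₐ[k] B) (p δ : Fin 2 → A) (n : ℕ) :
    (lin f (fun i => ψ (p i)) (fun i => ψ (δ i))).coeff n = ψ ((lin f p δ).coeff n) := by
  rw [← lin_map, coeff_map]; rfl

theorem lin_eval (p δ : Fin 2 → A) (τ : A) :
    (lin f p δ).eval τ = MvPolynomial.aeval (fun i => p i + τ * δ i) f := by
  have h : (Polynomial.aeval τ : A[X] →ₐ[A] A).restrictScalars k (lin f p δ)
      = MvPolynomial.aeval (fun i => p i + τ * δ i) f := by
    rw [lin, MvPolynomial.comp_aeval_apply]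
    congr 2
    funext i
    simp
    ring
  rw [← h]
  simp [Polynomial.coe_aeval_eq_eval]

theorem lin_comp (p δ : Fin 2 → A) (g : A[X]) :
    (lin f p δ).comp g = MvPolynomial.aeval (fun i => C (p i) + g * C (δ i)) f := by
  have h : (Polynomial.aeval g : A[X] →ₐ[A] A[X]).restrictScalars k (lin f p δ)
      = MvPolynomial.aeval (fun i => C (p i) + g * C (δ i)) f := by
    rw [lin, MvPolynomial.comp_aeval_apply]
    congr 2
    funext i
    simp
    ring
  rw [← h]
  simp [Polynomial.comp, Polynomial.aeval_def, Polynomial.algebraMap_eq]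

theorem lin_translate (p δ : Fin 2 → A) (c : A) :
    lin f (fun i => p i + c * δ i) δ = (lin f p δ).comp (X + C c) := by
  rw [lin_comp, lin]
  congr 2
  funext i
  simp only [C_add, C_mul]; ring

theorem lin_scale (p δ : Fin 2 → A) (c : A) :
    lin f p (fun i => c * δ i) = (lin f p δ).comp (C c * X) := by
  rw [lin_comp, lin]
  congr 2
  funext i
  simp only [C_mul]; ring

theorem lin_natDegree_le (hf : f.totalDegree ≤ 4) (p δ : Fin 2 → A) :
    (lin f p δ).natDegree ≤ 4 := by
  have h1 : lin f p δ = MvPolynomial.aeval (fun i => C (p i) + X * C (δ i))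
      (MvPolynomial.map (algebraMap k A) f) := by
    rw [lin, MvPolynomial.aeval_map_algebraMap]
  rw [h1]
  have h2 := MvPolynomial.aeval_natDegree_le (m := 4) (n := 1)
    (MvPolynomial.map (algebraMap k A) f) (le_trans (Finset.sup_mono (MvPolynomial.support_map_subset _ _)) hf)
    (fun i => C (p i) + X * C (δ i)) (fun i => by
      refine le_trans (natDegree_add_le _ _) (max_le (by simp) ?_)
      exact le_trans (natDegree_mul_C_le _ _) natDegree_X_le)
  simpa using h2

theorem lin_coeff_mem (p δ : Fin 2 → A) (n : ℕ) :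
    (lin f p δ).coeff n ∈ (Ideal.span (Set.range δ)) ^ n := by
  have h : lin f p δ ∈ (reesAlgebra (Ideal.span (Set.range δ))).restrictScalars k := by
    rw [lin]
    have h1 : ∀ i, C (p i) + X * C (δ i) ∈
        (reesAlgebra (Ideal.span (Set.range δ))).restrictScalars k := by
      intro i
      refine add_mem ?_ ?_
      · exact (reesAlgebra (Ideal.span (Set.range δ))).algebraMap_mem (p i)
      · have : X * C (δ i) = monomial 1 (δ i) := by
          rw [← C_mul_X_eq_monomial, mul_comm]
        rw [this]
        exact reesAlgebra.monomial_mem.2 (by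
          rw [pow_one]; exact Ideal.subset_span (Set.mem_range_self i))
    have h2 := MvPolynomial.comp_aeval_apply
      (φ := ((reesAlgebra (Ideal.span (Set.range δ))).restrictScalars k).val)
      (f := fun i => (⟨_, h1 i⟩ : (reesAlgebra (Ideal.span (Set.range δ))).restrictScalars k)) f
    rw [← show _ = MvPolynomial.aeval (fun i => C (p i) + X * C (δ i)) f from h2]
    exact SetLike.coe_mem _
  exact (mem_reesAlgebra_iff _ _).1 h n

end

end Pool.Agent.TQU
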