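import Pool.Agent.TQU.Core

/-!
# At least nine zeros of `H` on `F = 0`
-/

namespace Pool.Agent.TQU

open Polynomial

variable {M : Type*} [Field M]

/-- exponents of degree at most three -/
abbrev I10 : Type := {p : Fin 4 × Fin 4 // p.1.1 + p.2.1 ≤ 3}

theorem card_I10 : Fintype.card I10 = 10 := by decide

noncomputable def expo (p : I10) : Fin 2 →₀ ℕ :=
  Finsupp.single 0 p.1.1.1 + Finsupp.single 1 p.1.2.1

theorem expo_injective : Function.Injective expo := by
  intro p q h
  have h0 := DFunLike.congr_fun h 0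
  have h1 := DFunLike.congr_fun h 1
  simp [expo] at h0 h1
  exact Subtype.ext (Prod.ext (Fin.ext h0) (Fin.ext h1))

/-- polynomials of degree at most three -/
noncomputable def pol : (I10 → M) →ₗ[M] MvPolynomial (Fin 2) M :=
  ∑ j : I10, (MvPolynomial.monomial (expo j) : M →ₗ[M] MvPolynomial (Fin 2) M) ∘ₗ LinearMap.proj j

theorem pol_apply (v : I10 → M) : pol v = ∑ j : I10, MvPolynomial.monomial (expo j) (v j) := by
  simp [pol]

theorem coeff_pol (v : I10 → M) (j : I10) : MvPolynomial.coeff (expo j) (pol v) = v j := by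
  rw [pol_apply, MvPolynomial.coeff_sum, Finset.sum_eq_single j]
  · simp
  · intro b _ hb
    rw [MvPolynomial.coeff_monomial, if_neg]
    exact fun h => hb (expo_injective h)
  · intro h; exact absurd (Finset.mem_univ j) h

theorem pol_injective : Function.Injective (pol : (I10 → M) →ₗ[M] MvPolynomial (Fin 2) M) := by
  intro v w h
  funext j
  rw [← coeff_pol v j, ← coeff_pol w j, h]

theorem pol_totalDegree (v : I10 → M) : (pol v).totalDegree ≤ 3 := by
  rw [pol_apply]
  refine le_trans (MvPolynomial.totalDegree_finsetSum_le (d := 3) ?_) le_rfl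
  intro j _
  by_cases h : v j = 0
  · rw [h]; simp
  · rw [MvPolynomial.totalDegree_monomial _ h]
    have : (expo j).sum (fun _ e => e) = j.1.1.1 + j.1.2.1 := by
      rw [expo, Finsupp.sum_add_index' (fun _ => rfl) (fun _ _ _ => rfl),
        Finsupp.sum_single_index rfl, Finsupp.sum_single_index rfl]
    rw [this]
    exact j.2

theorem nine [IsAlgClosed M] (F : MvPolynomial (Fin 2) M) (hF : F.totalDegree ≤ 4)
    (P : Fin 2 → M) (hP : MvPolynomial.eval P F = 0) [IsDedekindDomain (CR F)]
    (hinf : ∀ δ : Fin 2 → M, δ ≠ 0 → ¬ ((lin F P δ).coeff 4 = 0 ∧ (lin F P δ).coeff 3 = 0))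
    (s : Multiset (Fin 2 → M)) (hs : ∀ Q ∈ s, MvPolynomial.eval Q F = 0)
    (h : Ideal.span {Ideal.Quotient.mk (Ideal.span {F}) (HH F P)} = (s.map (ptIdeal F)).prod) :
    9 ≤ s.card := by
  obtain ⟨hd3, hlc⟩ := hat_HH_natDegree F P hinf
  have hd4 := hat_natDegree F hF P hinf
  -- every polynomial of degree ≤ 3 in `(F, H)` is a multiple of `H`
  have key : ∀ v : I10 → M, Ideal.Quotient.mk (Ideal.span {F}) (pol v) ∈
      Ideal.span {Ideal.Quotient.mk (Ideal.span {F}) (HH F P)} →
      ∃ c : M, pol v = MvPolynomial.C c * HH F P := by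
    intro v hv
    obtain ⟨r, hr⟩ := Ideal.mem_span_singleton'.1 hv
    obtain ⟨β, rfl⟩ := Ideal.Quotient.mk_surjective r
    rw [← map_mul, Ideal.Quotient.eq, Ideal.mem_span_singleton'] at hr
    obtain ⟨α, hα⟩ := hr
    -- α F = β H - pol v
    have h1 : pol v = (-α) * F + β * HH F P := by rw [neg_mul, hα]; ring
    have h2 : hat P (pol v) = hat P (-α) * hat P F + hat P β * hat P (HH F P) := by
      rw [h1, map_add, map_mul, map_mul]
    have hdeg : (hat P (-α) * hat P F + hat P β * hat P (HH F P)).natDegree ≤ 3 := by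
      rw [← h2]; exact hat_natDegree_le P _ 3 (pol_totalDegree v)
    obtain ⟨c, hc⟩ := descent (hat P F) (hat P (HH F P)) (hat P (-α)) (hat P β) hd4 hd3
      (by rw [hlc]; exact hat_coeff_isHomogeneous P F 3)
      (by
        intro g hg
        rw [hlc] at hg ⊢
        rw [leadingCoeff, hd4] at hg
        refine relprime _ _ ?_ g hg
        intro δ hδ hh
        rw [eval_coeff_hat, eval_coeff_hat] at hh
        exact hinf δ hδ hh)
      (fun i => (hat_coeff_isHomogeneous P _ i).totalDegree_le)
      (fun i => (hat_coeff_isHomogeneous P _ i).totalDegree_le) hdeg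
    rw [← h2] at hc
    -- `c` is a constant
    have h3 : (hat P (pol v)).coeff 3 = c * (hat P F).coeff 3 := by
      rw [hc, coeff_C_mul]
      congr 1
      rw [← hlc, leadingCoeff, hd3]
    have hne3 := coeff_hat_ne_zero F P hinf 3 4 (Or.inl ⟨rfl, rfl⟩)
    have hcc : ∃ c0 : M, c = MvPolynomial.C c0 := by
      by_cases hc0 : c = 0
      · exact ⟨0, by rw [hc0, map_zero]⟩
      have h4 : (c * (hat P F).coeff 3).totalDegree ≤ 3 := by
        rw [← h3]; exact (hat_coeff_isHomogeneous P _ 3).totalDegree_le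
      rw [MvPolynomial.totalDegree_mul_of_isDomain hc0 hne3,
        (hat_coeff_isHomogeneous P F 3).totalDegree hne3] at h4
      exact ⟨_, MvPolynomial.totalDegree_eq_zero_iff_eq_C.1 (by omega)⟩
    obtain ⟨c0, rfl⟩ := hcc
    refine ⟨c0, hat_injective P ?_⟩
    rw [hc, map_mul]
    congr 1
    simp [hat]
  let Λ : (I10 → M) →ₗ[M] CR F := (Ideal.Quotient.mkₐ M (Ideal.span {F})).toLinearMap ∘ₗ pol
  have hcount := count Λ (s.map (ptIdeal F)) (by
    intro m hm
    obtain ⟨Q, hQ, rfl⟩ := Multiset.mem_map.1 hm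
    exact ⟨pt_max F Q (hs Q hQ), pt_ne_bot F Q (hs Q hQ), pt_res F Q (hs Q hQ)⟩)
  rw [← h, Multiset.card_map, Module.finrank_fintype_fun_eq_card, card_I10] at hcount
  have hle : Module.finrank M (Submodule.comap Λ
      ((Ideal.span {Ideal.Quotient.mk (Ideal.span {F}) (HH F P)}).restrictScalars M)) ≤ 1 := by
    set W := Submodule.comap Λ
      ((Ideal.span {Ideal.Quotient.mk (Ideal.span {F}) (HH F P)}).restrictScalars M) with hW
    by_cases hbot : ∃ v ∈ W, v ≠ 0
    · obtain ⟨v, hv, hv0⟩ := hbot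
      obtain ⟨c, hc⟩ := key v hv
      have hc0 : c ≠ 0 := by
        rintro rfl
        rw [map_zero, zero_mul] at hc
        exact hv0 (pol_injective (by rw [hc, map_zero]))
      refine finrank_le_one (⟨v, hv⟩ : W) ?_
      rintro ⟨w, hw⟩
      obtain ⟨d, hd⟩ := key w hw
      refine ⟨d / c, Subtype.ext (pol_injective ?_)⟩
      change pol ((d / c) • v) = pol w
      rw [map_smul, hc, hd, MvPolynomial.smul_eq_C_mul, ← mul_assoc, ← map_mul]
      congr 2
      field_simp
    · push Not at hbot
      have : W = ⊥ := (Submodule.eq_bot_iff W).2 hbot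
      rw [this, finrank_bot]
      norm_num
  omega

end Pool.Agent.TQU
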