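import Pool.Agent.TQU.Hat

/-!
# The cubic `H = 2 F_1 + 2 F_2 + F_3` and the nine partners of a point of a plane quartic
-/

namespace Pool.Agent.TQU

open Polynomial

variable {M : Type*} [Field M]

/-- `P` and `Q` are symmetric on a line `P + τ δ` on which `F = a m² + c m`, `m = τ² - ρ τ`,
`Q = P + ρ δ`, `a ≠ 0`. -/
def SymPair (F : MvPolynomial (Fin 2) M) (P Q : Fin 2 → M) : Prop :=
  ∃ δ : Fin 2 → M, δ ≠ 0 ∧ ∃ ρ a c : M, a ≠ 0 ∧ (∀ i, Q i = P i + ρ * δ i) ∧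
    lin F P δ = C a * (X ^ 2 - C ρ * X) ^ 2 + C c * (X ^ 2 - C ρ * X)

/-- the cubic -/
noncomputable def HH (F : MvPolynomial (Fin 2) M) (P : Fin 2 → M) : MvPolynomial (Fin 2) M :=
  2 * tay F P 1 + 2 * tay F P 2 + tay F P 3

theorem lin_coeff_zero (F : MvPolynomial (Fin 2) M) (P δ : Fin 2 → M) :
    (lin F P δ).coeff 0 = MvPolynomial.eval P F := by
  rw [coeff_zero_eq_eval_zero, lin_eval]
  simp

theorem lin_coeff_of_zero (F : MvPolynomial (Fin 2) M) (P : Fin 2 → M) (i : ℕ) (hi : i ≠ 0) :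
    (lin F P 0).coeff i = 0 := by
  have h : lin F P 0 = C (MvPolynomial.aeval P F) := by
    rw [lin]
    have : (fun i => C (P i) + X * C ((0 : Fin 2 → M) i)) = fun i => (C (P i) : M[X]) := by
      funext i; simp
    rw [this]
    exact (MvPolynomial.comp_aeval_apply (φ := (Polynomial.CAlgHom (R := M) (A := M))) P F).symm
  rw [h, coeff_C, if_neg hi]

theorem coeff_hat_ne_zero [IsAlgClosed M] (F : MvPolynomial (Fin 2) M) (P : Fin 2 → M)
    (hinf : ∀ δ : Fin 2 → M, δ ≠ 0 → ¬ ((lin F P δ).coeff 4 = 0 ∧ (lin F P δ).coeff 3 = 0))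
    (i j : ℕ) (hij : (i = 3 ∧ j = 4) ∨ (i = 4 ∧ j = 3)) : (hat P F).coeff i ≠ 0 := by
  have hinf' : ∀ δ : Fin 2 → M, δ ≠ 0 → ¬ ((lin F P δ).coeff i = 0 ∧ (lin F P δ).coeff j = 0) := by
    rcases hij with ⟨rfl, rfl⟩ | ⟨rfl, rfl⟩
    · exact fun δ hδ h => hinf δ hδ ⟨h.2, h.1⟩
    · exact hinf
  have hj0 : j ≠ 0 := by rcases hij with ⟨_, rfl⟩ | ⟨_, rfl⟩ <;> norm_num
  intro h0
  -- then the other coefficient has no zero except 0
  have h1 : ∀ δ : Fin 2 → M, δ ≠ 0 → MvPolynomial.eval δ ((hat P F).coeff j) ≠ 0 := by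
    intro δ hδ h
    refine hinf' δ hδ ⟨?_, ?_⟩
    · rw [← eval_coeff_hat, h0, map_zero]
    · rw [← eval_coeff_hat, h]
  have he : (Function.const (Fin 2) (1 : M)) ≠ 0 := by
    intro h; exact one_ne_zero (congrFun h 0)
  have hne : (hat P F).coeff j ≠ 0 := by
    intro h
    exact h1 _ he (by rw [h, map_zero])
  by_cases hu : IsUnit ((hat P F).coeff j)
  · have h2 : MvPolynomial.eval (0 : Fin 2 → M) ((hat P F).coeff j) = 0 := by
      rw [eval_coeff_hat, lin_coeff_of_zero _ _ _ hj0]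
    exact (hu.map (MvPolynomial.eval (0 : Fin 2 → M))).ne_zero h2
  · obtain ⟨δ, hδ, h⟩ := exists_zero _ hne hu
    exact h1 δ hδ h

theorem hat_natDegree [IsAlgClosed M] (F : MvPolynomial (Fin 2) M) (hF : F.totalDegree ≤ 4)
    (P : Fin 2 → M)
    (hinf : ∀ δ : Fin 2 → M, δ ≠ 0 → ¬ ((lin F P δ).coeff 4 = 0 ∧ (lin F P δ).coeff 3 = 0)) :
    (hat P F).natDegree = 4 :=
  le_antisymm (hat_natDegree_le P F 4 hF)
    (le_natDegree_of_ne_zero (coeff_hat_ne_zero F P hinf 4 3 (Or.inr ⟨rfl, rfl⟩)))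

theorem hat_HH (F : MvPolynomial (Fin 2) M) (P : Fin 2 → M) :
    hat P (HH F P) = C (2 * (hat P F).coeff 1) * X + C (2 * (hat P F).coeff 2) * X ^ 2
      + C ((hat P F).coeff 3) * X ^ 3 := by
  rw [HH, map_add, map_add, map_mul, map_mul, hat_tay, hat_tay, hat_tay, map_ofNat]
  simp only [C_mul, pow_one, map_ofNat]
  ring

theorem hat_HH_natDegree [IsAlgClosed M] (F : MvPolynomial (Fin 2) M) (P : Fin 2 → M)
    (hinf : ∀ δ : Fin 2 → M, δ ≠ 0 → ¬ ((lin F P δ).coeff 4 = 0 ∧ (lin F P δ).coeff 3 = 0)) :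
    (hat P (HH F P)).natDegree = 3 ∧ (hat P (HH F P)).leadingCoeff = (hat P F).coeff 3 := by
  have h3 := coeff_hat_ne_zero F P hinf 3 4 (Or.inl ⟨rfl, rfl⟩)
  have hc : (hat P (HH F P)).coeff 3 = (hat P F).coeff 3 := by
    rw [hat_HH]
    simp only [coeff_add, coeff_C_mul, coeff_X, coeff_X_pow]
    norm_num
  have hle : (hat P (HH F P)).natDegree ≤ 3 := by
    rw [hat_HH]
    compute_degree
  have hd : (hat P (HH F P)).natDegree = 3 :=
    le_antisymm hle (le_natDegree_of_ne_zero (by rw [hc]; exact h3))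
  refine ⟨hd, ?_⟩
  rw [leadingCoeff, hd, hc]

theorem not_dvd_HH [IsAlgClosed M] (F : MvPolynomial (Fin 2) M) (hF : F.totalDegree ≤ 4)
    (P : Fin 2 → M)
    (hinf : ∀ δ : Fin 2 → M, δ ≠ 0 → ¬ ((lin F P δ).coeff 4 = 0 ∧ (lin F P δ).coeff 3 = 0)) :
    ¬ F ∣ HH F P := by
  rintro ⟨u, hu⟩
  have h1 := hat_natDegree F hF P hinf
  have h2 := (hat_HH_natDegree F P hinf).1
  rw [hu, map_mul] at h2
  have hne : hat P F * hat P u ≠ 0 := by
    intro h; rw [h, natDegree_zero] at h2; exact absurd h2 (by norm_num)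
  rw [natDegree_mul (left_ne_zero_of_mul hne) (right_ne_zero_of_mul hne), h1] at h2
  omega

end Pool.Agent.TQU
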