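import Pool.Agent.TQU.RW
import Pool.Agent.TQU.RF

/-!
[TQU-L] local analysis at a smooth point `P` of the plane curve `F = 0`. Write
`c_i(δ) = (lin F P δ).coeff i` (Taylor form of degree `i` of `F` at `P`, evaluated at `δ`), and let
`c3 ∈ M[X,Y]` be the Taylor form of degree 3 with `δ = X - P`:
`c3 = (lin F (C ∘ P) (fun i => X i - C (P i))).coeff 3`. If the class of `c3 + 2 c4` (same with `c4`)
lies in `(ptIdeal F P)^4`, then there is a direction `δ ≠ 0` with `c_1(δ) = 0` and `c_3(δ) = 0`.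

Proof. `R = CR F` is a Dedekind domain, `m = ptIdeal F P` maximal, nonzero (TQU.RF, `pt_max`,
`pt_ne_bot`), so `m ≠ m^2` and `m / m^2` is a one-dimensional vector space over `M`
(a, b ∈ m: `two` of TQU.RW with `J = m`). `c4 ∈ m^4` and `c_i ∈ m^i` (`lin_coeff_mem` with
`A = M[X,Y]`). Let `u_i = X i - P i` (classes in `R`), `m = (u_0, u_1)`.
The linear form `c_1(δ) = l_0 δ_0 + l_1 δ_1`. In `R`: `0 = F = c_1 + c_2 + c_3 + c_4` (`lin_eval` at `τ = 1`
and `c_0 = F(P) = 0`, degree `≤ 4`), so `l_0 u_0 + l_1 u_1 ∈ m^2`. `(l_0,l_1) ≠ 0`: otherwise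
`F ∈ (X_0-P_0, X_1-P_1)^2` and then `u_0`, `u_1` are independent modulo `m^2`, against `two`
(or directly: `m/m^2` would be `(X-P)/(X-P)^2`, two-dimensional).
Take `δ = (l_1, -l_0) ≠ 0`, so `c_1(δ) = 0`. Say `l_0 ≠ 0` (the other case is symmetric):
`u_0 ≡ - (l_1/l_0) u_1 = (δ_0/δ_1) u_1` mod `m^2`, `m = (u_1) + m^2`, so `u_1 ∉ m^2`. The cubic form
`c_3(u_0,u_1) ≡ c_3(δ_0/δ_1, 1) u_1^3` mod `m^4`. By hypothesis `c_3 ∈ m^4`; if
`c_3(δ_0/δ_1,1) ≠ 0` then `u_1^3 ∈ m^4`, i.e. `3 v_m(u_1) ≥ 4`, so `u_1 ∈ m^2`, contradiction. So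
`c_3(δ) = δ_1^3 c_3(δ_0/δ_1,1) = 0`.
You may import `Pool.Agent.TQU.RW` and `Pool.Agent.TQU.RF`.
-/

namespace Pool.Agent.TQU

/-- Taylor form of degree `i` at `P`, as a polynomial in the coordinates of the plane. -/
noncomputable def tay {M : Type*} [Field M] (F : MvPolynomial (Fin 2) M) (P : Fin 2 → M) (i : ℕ) :
    MvPolynomial (Fin 2) M :=
  (lin F (fun i => MvPolynomial.C (P i)) (fun i => MvPolynomial.X i - MvPolynomial.C (P i))).coeff i

theorem eval_tay {M : Type*} [Field M] (F : MvPolynomial (Fin 2) M) (P Q : Fin 2 → M) (i : ℕ) :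
    MvPolynomial.eval Q (tay F P i) = (lin F P (fun i => Q i - P i)).coeff i := by
  have h := coeff_lin_map F (MvPolynomial.aeval Q : MvPolynomial (Fin 2) M →ₐ[M] M)
    (fun i => MvPolynomial.C (P i)) (fun i => MvPolynomial.X i - MvPolynomial.C (P i)) i
  simp only [map_sub, MvPolynomial.aeval_C, MvPolynomial.aeval_X, Algebra.algebraMap_self,
    RingHom.id_apply] at h
  rw [h]
  rfl

open Polynomial in
theorem RL_coeff_succ {A : Type*} [CommRing A] (g : A[X]) (a b : A) (n : ℕ) :
    (g * (C a + X * C b)).coeff (n + 1) = g.coeff (n + 1) * a + g.coeff n * b := by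
  have h : g * (C a + X * C b) = g * C a + (g * C b) * X := by ring
  rw [h, coeff_add, coeff_mul_C, coeff_mul_X, coeff_mul_C]

open Polynomial in
theorem RL_coeff_zero' {A : Type*} [CommRing A] (g : A[X]) (a b : A) :
    (g * (C a + X * C b)).coeff 0 = g.coeff 0 * a := by
  have h : g * (C a + X * C b) = g * C a + (g * C b) * X := by ring
  rw [h, coeff_add, coeff_mul_C, mul_coeff_zero (g * C b), coeff_X_zero, mul_zero, add_zero]

theorem RL_lin_C {k A : Type*} [CommRing k] [CommRing A] [Algebra k A] (a : k) (p δ : Fin 2 → A) :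
    lin (MvPolynomial.C a : MvPolynomial (Fin 2) k) p δ = Polynomial.C (algebraMap k A a) := by
  unfold lin
  rw [MvPolynomial.aeval_C]
  rfl

theorem RL_lin_add {k A : Type*} [CommRing k] [CommRing A] [Algebra k A]
    (f g : MvPolynomial (Fin 2) k) (p δ : Fin 2 → A) :
    lin (f + g) p δ = lin f p δ + lin g p δ := by
  unfold lin
  rw [map_add]

theorem RL_lin_mul {k A : Type*} [CommRing k] [CommRing A] [Algebra k A]
    (f : MvPolynomial (Fin 2) k) (j : Fin 2) (p δ : Fin 2 → A) :
    lin (f * MvPolynomial.X j) p δ =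
      lin f p δ * (Polynomial.C (p j) + Polynomial.X * Polynomial.C (δ j)) := by
  unfold lin
  rw [map_mul, MvPolynomial.aeval_X]

theorem RL_aeval {M : Type*} [Field M] (P : Fin 2 → M) (g : MvPolynomial (Fin 2) M) :
    MvPolynomial.aeval P g = MvPolynomial.eval P g := by
  rw [← MvPolynomial.coe_aeval_eq_eval]
  rfl

theorem RL_coeff_zero {k A : Type*} [CommRing k] [CommRing A] [Algebra k A]
    (f : MvPolynomial (Fin 2) k) (p δ : Fin 2 → A) :
    (lin f p δ).coeff 0 = MvPolynomial.aeval p f := by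
  induction f using MvPolynomial.induction_on with
  | C a => rw [RL_lin_C, Polynomial.coeff_C_zero, MvPolynomial.aeval_C]
  | add f g hf hg => rw [RL_lin_add, Polynomial.coeff_add, hf, hg, map_add]
  | mul_X f j hf => rw [RL_lin_mul, RL_coeff_zero', hf, map_mul, MvPolynomial.aeval_X]

theorem RL_coeff_one {k A : Type*} [CommRing k] [CommRing A] [Algebra k A]
    (f : MvPolynomial (Fin 2) k) (p δ : Fin 2 → A) :
    (lin f p δ).coeff 1 = δ 0 * MvPolynomial.aeval p (MvPolynomial.pderiv 0 f) +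
      δ 1 * MvPolynomial.aeval p (MvPolynomial.pderiv 1 f) := by
  induction f using MvPolynomial.induction_on with
  | C a =>
    rw [RL_lin_C, Polynomial.coeff_C_of_ne_zero one_ne_zero, MvPolynomial.pderiv_C,
      MvPolynomial.pderiv_C, map_zero, mul_zero, mul_zero, add_zero]
  | add f g hf hg =>
    rw [RL_lin_add, Polynomial.coeff_add, hf, hg, map_add, map_add, map_add, map_add]
    ring
  | mul_X f j hf =>
    have h1 := RL_coeff_succ (lin f p δ) (p j) (δ j) 0
    rw [zero_add] at h1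
    rw [RL_lin_mul, h1, hf, RL_coeff_zero, MvPolynomial.pderiv_mul, MvPolynomial.pderiv_mul,
      map_add, map_add, map_mul, map_mul, map_mul, map_mul, MvPolynomial.aeval_X]
    fin_cases j
    · have e1 : (MvPolynomial.pderiv 0) (MvPolynomial.X 0 : MvPolynomial (Fin 2) k) = 1 :=
        MvPolynomial.pderiv_X_self 0
      have e2 : (MvPolynomial.pderiv 1) (MvPolynomial.X 0 : MvPolynomial (Fin 2) k) = 0 :=
        MvPolynomial.pderiv_X_of_ne (by decide)
      simp only [Fin.zero_eta, Fin.isValue, e1, e2, map_one, map_zero]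
      ring
    · have e1 : (MvPolynomial.pderiv 0) (MvPolynomial.X 1 : MvPolynomial (Fin 2) k) = 0 :=
        MvPolynomial.pderiv_X_of_ne (by decide)
      have e2 : (MvPolynomial.pderiv 1) (MvPolynomial.X 1 : MvPolynomial (Fin 2) k) = 1 :=
        MvPolynomial.pderiv_X_self 1
      simp only [Fin.mk_one, Fin.isValue, e1, e2, map_one, map_zero]
      ring

theorem RL_cong {k A : Type*} [CommRing k] [CommRing A] [Algebra k A] (J : Ideal A)
    (p u v : Fin 2 → A) (hu : ∀ i, u i ∈ J) (hv : ∀ i, v i ∈ J) (huv : ∀ i, u i - v i ∈ J ^ 2)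
    (f : MvPolynomial (Fin 2) k) : ∀ n, (lin f p u).coeff n ∈ J ^ n ∧
      (lin f p v).coeff n ∈ J ^ n ∧ (lin f p u).coeff n - (lin f p v).coeff n ∈ J ^ (n + 1) := by
  induction f using MvPolynomial.induction_on with
  | C a =>
    intro n
    rw [RL_lin_C, RL_lin_C, sub_self]
    have h1 : (Polynomial.C (algebraMap k A a)).coeff n ∈ J ^ n := by
      rcases n with _ | n
      · rw [pow_zero, Ideal.one_eq_top]
        trivial
      · rw [Polynomial.coeff_C_succ]
        exact (J ^ (n + 1)).zero_mem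
    exact ⟨h1, h1, (J ^ (n + 1)).zero_mem⟩
  | add f g hf hg =>
    intro n
    obtain ⟨a1, a2, a3⟩ := hf n
    obtain ⟨b1, b2, b3⟩ := hg n
    rw [RL_lin_add, RL_lin_add, Polynomial.coeff_add, Polynomial.coeff_add]
    refine ⟨(J ^ n).add_mem a1 b1, (J ^ n).add_mem a2 b2, ?_⟩
    have e : (lin f p u).coeff n + (lin g p u).coeff n -
        ((lin f p v).coeff n + (lin g p v).coeff n) =
        ((lin f p u).coeff n - (lin f p v).coeff n) +
          ((lin g p u).coeff n - (lin g p v).coeff n) := by ring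
    rw [e]
    exact (J ^ (n + 1)).add_mem a3 b3
  | mul_X f j hf =>
    intro n
    rw [RL_lin_mul, RL_lin_mul]
    rcases n with _ | n
    · obtain ⟨a1, a2, a3⟩ := hf 0
      rw [RL_coeff_zero', RL_coeff_zero', ← sub_mul, pow_zero, Ideal.one_eq_top]
      exact ⟨trivial, trivial, Ideal.mul_mem_right _ _ a3⟩
    · obtain ⟨a1, a2, a3⟩ := hf (n + 1)
      obtain ⟨b1, b2, b3⟩ := hf n
      rw [RL_coeff_succ, RL_coeff_succ]
      refine ⟨?_, ?_, ?_⟩
      · apply (J ^ (n + 1)).add_mem (Ideal.mul_mem_right _ _ a1)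
        rw [pow_succ]
        exact Ideal.mul_mem_mul b1 (hu j)
      · apply (J ^ (n + 1)).add_mem (Ideal.mul_mem_right _ _ a2)
        rw [pow_succ]
        exact Ideal.mul_mem_mul b2 (hv j)
      · have e : (lin f p u).coeff (n + 1) * p j + (lin f p u).coeff n * u j -
            ((lin f p v).coeff (n + 1) * p j + (lin f p v).coeff n * v j) =
            ((lin f p u).coeff (n + 1) - (lin f p v).coeff (n + 1)) * p j +
            (((lin f p u).coeff n - (lin f p v).coeff n) * u j +
              (lin f p v).coeff n * (u j - v j)) := by ring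
        rw [e]
        apply (J ^ (n + 1 + 1)).add_mem (Ideal.mul_mem_right _ _ a3)
        apply (J ^ (n + 1 + 1)).add_mem
        · rw [pow_succ J (n + 1)]
          exact Ideal.mul_mem_mul b3 (hu j)
        · have e2 : J ^ (n + 1 + 1) = J ^ n * J ^ 2 := by rw [← pow_add]
          rw [e2]
          exact Ideal.mul_mem_mul b2 (huv j)

/-- In a Dedekind domain `w ^ 3 ∈ m ^ 4` implies `w ∈ m ^ 2`. -/
theorem RL_cube {R : Type*} [CommRing R] [IsDedekindDomain R] (m : Ideal R) (hm : m.IsPrime)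
    (h0 : m ≠ ⊥) (w : R) (hw : w ^ 3 ∈ m ^ 4) : w ∈ m ^ 2 := by
  have hp : Prime m := Ideal.prime_of_isPrime h0 hm
  have hwm : w ∈ m := by
    have h1 : w ^ 3 ∈ m := Ideal.pow_le_self (by norm_num) hw
    exact hm.mem_of_pow_mem 3 h1
  have h1 : m ∣ Ideal.span {w} := by
    rw [Ideal.dvd_span_singleton]
    exact hwm
  obtain ⟨L, hL⟩ := h1
  have h2 : m ^ 4 ∣ (Ideal.span {w}) ^ 3 := by
    rw [Ideal.span_singleton_pow, Ideal.dvd_span_singleton]
    exact hw
  have h3 : m ^ 3 * m ∣ m ^ 3 * L ^ 3 := by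
    rw [hL, mul_pow] at h2
    exact h2
  have h4 : m ∣ L ^ 3 := (mul_dvd_mul_iff_left (pow_ne_zero 3 h0)).mp h3
  have h5 : m ∣ L := hp.dvd_of_dvd_pow h4
  have h6 : m ^ 2 ∣ Ideal.span {w} := by
    rw [hL, pow_two]
    exact mul_dvd_mul_left m h5
  exact Ideal.dvd_span_singleton.mp h6

/-- A nonzero prime ideal of a Dedekind domain is not contained in its square. -/
theorem RL_sq {R : Type*} [CommRing R] [IsDedekindDomain R] (m : Ideal R) (hm : m.IsPrime)
    (h0 : m ≠ ⊥) (h : m ≤ m ^ 2) : False := by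
  have hp : Prime m := Ideal.prime_of_isPrime h0 hm
  have h1 : m ^ 2 ∣ m := Ideal.dvd_iff_le.mpr h
  have h2 : m * m ∣ m * 1 := by
    rw [mul_one, ← pow_two]
    exact h1
  exact hp.not_isUnit (isUnit_of_dvd_one ((mul_dvd_mul_iff_left h0).mp h2))

/-- The derivatives of an element of the square of the ideal of `P` vanish at `P`. -/
theorem RL_deriv {M : Type*} [Field M] (P : Fin 2 → M) (g : MvPolynomial (Fin 2) M)
    (hg : g ∈ (Ideal.span (Set.range fun i => (MvPolynomial.X i - MvPolynomial.C (P i) :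
      MvPolynomial (Fin 2) M))) ^ 2) (j : Fin 2) :
    MvPolynomial.eval P (MvPolynomial.pderiv j g) = 0 := by
  have hle : Ideal.span (Set.range fun i => (MvPolynomial.X i - MvPolynomial.C (P i) :
      MvPolynomial (Fin 2) M)) ≤ RingHom.ker (MvPolynomial.eval P) := by
    rw [Ideal.span_le]
    rintro _ ⟨i, rfl⟩
    change MvPolynomial.eval P (MvPolynomial.X i - MvPolynomial.C (P i)) = 0
    rw [map_sub, MvPolynomial.eval_X, MvPolynomial.eval_C, sub_self]
  rw [pow_two] at hg
  refine Submodule.mul_induction_on hg ?_ ?_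
  · intro a ha b hb
    have ha' : MvPolynomial.eval P a = 0 := hle ha
    have hb' : MvPolynomial.eval P b = 0 := hle hb
    rw [MvPolynomial.pderiv_mul, map_add, map_mul, map_mul, ha', hb', mul_zero, zero_mul, add_zero]
  · intro a b ha hb
    rw [map_add, map_add, ha, hb, add_zero]

/-- The local argument in an abstract Dedekind domain. -/
theorem RL_abs {M R : Type*} [Field M] [CommRing R] [IsDedekindDomain R] [Algebra M R]
    (F : MvPolynomial (Fin 2) M) (P : Fin 2 → M) (m : Ideal R) (hprime : m.IsPrime) (hne : m ≠ ⊥)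
    (u q : Fin 2 → R) (hmu : m = Ideal.span (Set.range u))
    (hq : ∀ i, q i = algebraMap M R (P i))
    (hsum : (lin F q u).coeff 1 + (lin F q u).coeff 2 + (lin F q u).coeff 3 +
      (lin F q u).coeff 4 = 0) (h3 : (lin F q u).coeff 3 ∈ m ^ 4) (l : Fin 2 → M)
    (hl : ∀ i, l i = MvPolynomial.eval P (MvPolynomial.pderiv i F))
    (hl0 : l 0 ≠ 0 ∨ l 1 ≠ 0) :
    ∃ δ : Fin 2 → M, δ ≠ 0 ∧ (lin F P δ).coeff 1 = 0 ∧ (lin F P δ).coeff 3 = 0 := by
  have hum : ∀ i, u i ∈ m := by
    intro i
    rw [hmu]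
    exact Ideal.subset_span (Set.mem_range_self i)
  have hql : ∀ i, MvPolynomial.aeval q (MvPolynomial.pderiv i F) = algebraMap M (R) (l i) := by
    intro i
    have h6 := MvPolynomial.comp_aeval_apply (φ := (Algebra.ofId M (R)))
        (f := P) (MvPolynomial.pderiv i F)
    rw [RL_aeval] at h6
    have h7 : (fun i => (Algebra.ofId M (R)) (P i)) = q := by
      funext i
      exact (hq i).symm
    rw [h7] at h6
    rw [hl]
    exact h6.symm
  have hc1 : (lin F q u).coeff 1 = u 0 * algebraMap M (R) (l 0) +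
      u 1 * algebraMap M (R) (l 1) := by
    rw [RL_coeff_one, hql, hql]
  have hcm : ∀ n, (lin F q u).coeff n ∈ m ^ n := by
    intro n
    rw [hmu]
    exact lin_coeff_mem F q u n
  have hc1m : u 0 * algebraMap M (R) (l 0) + u 1 * algebraMap M (R) (l 1) ∈ m ^ 2 := by
    rw [← hc1]
    have e : (lin F q u).coeff 1 = -((lin F q u).coeff 2 + ((lin F q u).coeff 3 +
      (lin F q u).coeff 4)) := by
      rw [eq_neg_iff_add_eq_zero, ← hsum]
      ring
    rw [e]
    apply (m ^ 2).neg_mem
    apply (m ^ 2).add_mem (hcm 2)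
    exact (m ^ 2).add_mem (Ideal.pow_le_pow_right (by norm_num) (hcm 3))
      (Ideal.pow_le_pow_right (by norm_num) (hcm 4))
  obtain ⟨δ, hδ0, hδ1⟩ : ∃ δ : Fin 2 → M, δ 0 = l 1 ∧ δ 1 = - l 0 := ⟨![l 1, - l 0], rfl, rfl⟩
  -- a uniformizer
  obtain ⟨w, hwm, hw⟩ : ∃ w ∈ m, ∀ i, u i - algebraMap M (R) (δ i) * w ∈ m ^ 2 := by
    rcases hl0 with h0 | h1
    · refine ⟨algebraMap M (R) (-(l 0)⁻¹) * u 1, Ideal.mul_mem_left _ _ (hum 1), ?_⟩
      intro i
      fin_cases i
      · change u 0 - algebraMap M (R) (δ 0) * (algebraMap M (R) (-(l 0)⁻¹) * u 1) ∈ m ^ 2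
        have e : u 0 - algebraMap M (R) (δ 0) * (algebraMap M (R) (-(l 0)⁻¹) * u 1) =
            algebraMap M (R) ((l 0)⁻¹) *
              (u 0 * algebraMap M (R) (l 0) + u 1 * algebraMap M (R) (l 1)) := by
          have e1 : algebraMap M (R) ((l 0)⁻¹) * algebraMap M (R) (l 0) = 1 := by
            rw [← map_mul, inv_mul_cancel₀ h0, map_one]
          rw [hδ0, map_neg]
          linear_combination (-(u 0)) * e1
        rw [e]
        exact Ideal.mul_mem_left _ _ hc1m
      · change u 1 - algebraMap M (R) (δ 1) * (algebraMap M (R) (-(l 0)⁻¹) * u 1) ∈ m ^ 2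
        have e : u 1 - algebraMap M (R) (δ 1) * (algebraMap M (R) (-(l 0)⁻¹) * u 1) = 0 := by
          have e1 : algebraMap M (R) ((l 0)⁻¹) * algebraMap M (R) (l 0) = 1 := by
            rw [← map_mul, inv_mul_cancel₀ h0, map_one]
          rw [hδ1, map_neg, map_neg]
          linear_combination (-(u 1)) * e1
        rw [e]
        exact (m ^ 2).zero_mem
    · refine ⟨algebraMap M (R) ((l 1)⁻¹) * u 0, Ideal.mul_mem_left _ _ (hum 0), ?_⟩
      intro i
      have e1 : algebraMap M (R) ((l 1)⁻¹) * algebraMap M (R) (l 1) = 1 := by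
        rw [← map_mul, inv_mul_cancel₀ h1, map_one]
      fin_cases i
      · change u 0 - algebraMap M (R) (δ 0) * (algebraMap M (R) ((l 1)⁻¹) * u 0) ∈ m ^ 2
        have e : u 0 - algebraMap M (R) (δ 0) * (algebraMap M (R) ((l 1)⁻¹) * u 0) = 0 := by
          rw [hδ0]
          linear_combination (-(u 0)) * e1
        rw [e]
        exact (m ^ 2).zero_mem
      · change u 1 - algebraMap M (R) (δ 1) * (algebraMap M (R) ((l 1)⁻¹) * u 0) ∈ m ^ 2
        have e : u 1 - algebraMap M (R) (δ 1) * (algebraMap M (R) ((l 1)⁻¹) * u 0) =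
            algebraMap M (R) ((l 1)⁻¹) *
              (u 0 * algebraMap M (R) (l 0) + u 1 * algebraMap M (R) (l 1)) := by
          rw [hδ1, map_neg]
          linear_combination (-(u 1)) * e1
        rw [e]
        exact Ideal.mul_mem_left _ _ hc1m
  have hw2 : w ∉ m ^ 2 := by
    intro hcon
    apply RL_sq m hprime hne
    conv_lhs => rw [hmu]
    rw [Ideal.span_le]
    rintro _ ⟨i, rfl⟩
    have e : u i = (u i - algebraMap M (R) (δ i) * w) + algebraMap M (R) (δ i) * w := by ring
    rw [SetLike.mem_coe, e]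
    exact (m ^ 2).add_mem (hw i) (Ideal.mul_mem_left _ _ hcon)
  refine ⟨δ, ?_, ?_, ?_⟩
  · intro hδ
    rcases hl0 with h0 | h1
    · apply h0
      have h2 := hδ1
      rw [hδ, Pi.zero_apply] at h2
      rw [← neg_eq_zero]
      exact h2.symm
    · apply h1
      rw [← hδ0, hδ]
      rfl
  · rw [RL_coeff_one, RL_aeval, RL_aeval, hδ0, hδ1, ← hl, ← hl]
    ring
  · by_contra hcon
    apply hw2
    apply RL_cube m hprime hne
    have h2 := (RL_cong m q u (fun i => w * algebraMap M (R) (δ i)) hum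
      (fun i => Ideal.mul_mem_right _ _ hwm) (fun i => by rw [mul_comm]; exact hw i) F 3).2.2
    have h3c : (lin F q (fun i => w * algebraMap M (R) (δ i))).coeff 3 =
        algebraMap M (R) ((lin F P δ).coeff 3) * w ^ 3 := by
      have h4 := coeff_lin_map F (Algebra.ofId M (R)) P δ 3
      have h5 : (fun i => (Algebra.ofId M (R)) (P i)) = q := by
        funext i
        exact (hq i).symm
      rw [h5] at h4
      have h6 : (lin F q (fun i => algebraMap M (R) (δ i))).coeff 3 =
        algebraMap M (R) ((lin F P δ).coeff 3) := h4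
      rw [lin_scale, Polynomial.comp_C_mul_X_coeff, h6]
    rw [h3c] at h2
    have h4 : algebraMap M (R) ((lin F P δ).coeff 3) * w ^ 3 ∈ m ^ 4 := by
      have e : algebraMap M (R) ((lin F P δ).coeff 3) * w ^ 3 = (lin F q u).coeff 3 -
        ((lin F q u).coeff 3 - algebraMap M (R) ((lin F P δ).coeff 3) * w ^ 3) := by ring
      rw [e]
      exact (m ^ 4).sub_mem h3 h2
    have h5 : w ^ 3 = algebraMap M (R) ((lin F P δ).coeff 3)⁻¹ *
        (algebraMap M (R) ((lin F P δ).coeff 3) * w ^ 3) := by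
      rw [← mul_assoc, ← map_mul, inv_mul_cancel₀ hcon, map_one, one_mul]
    rw [h5]
    exact Ideal.mul_mem_left _ _ h4

theorem sum_tay {M : Type*} [Field M] (F : MvPolynomial (Fin 2) M) (hF : F.totalDegree ≤ 4)
    (P : Fin 2 → M) (hP : MvPolynomial.eval P F = 0) :
    F = tay F P 1 + tay F P 2 + tay F P 3 + tay F P 4 := by
  have h1 := lin_eval F (fun i => MvPolynomial.C (P i))
    (fun i => (MvPolynomial.X i - MvPolynomial.C (P i) : MvPolynomial (Fin 2) M)) 1
  have h2 : (MvPolynomial.aeval (fun i => (MvPolynomial.C (P i) + 1 *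
      (MvPolynomial.X i - MvPolynomial.C (P i)) : MvPolynomial (Fin 2) M))) F = F := by
    have h3 : (fun i => (MvPolynomial.C (P i) + 1 *
      (MvPolynomial.X i - MvPolynomial.C (P i)) : MvPolynomial (Fin 2) M)) = MvPolynomial.X := by
      funext i
      ring
    rw [h3, MvPolynomial.aeval_X_left_apply]
  have h3 := lin_natDegree_le F hF (fun i => MvPolynomial.C (P i))
    (fun i => (MvPolynomial.X i - MvPolynomial.C (P i) : MvPolynomial (Fin 2) M))
  have h4 : tay F P 0 = 0 := by
    unfold tay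
    rw [RL_coeff_zero]
    have h5 : (MvPolynomial.aeval (fun i => (MvPolynomial.C (P i) : MvPolynomial (Fin 2) M))) F =
        MvPolynomial.C (MvPolynomial.eval P F) := by
      have h6 := MvPolynomial.comp_aeval_apply (φ := (Algebra.ofId M (MvPolynomial (Fin 2) M)))
        (f := P) F
      rw [RL_aeval] at h6
      exact h6.symm
    rw [h5, hP, map_zero]
  rw [h2, Polynomial.eval_eq_sum_range' (Nat.lt_succ_of_le h3)] at h1
  simp only [one_pow, mul_one, Finset.sum_range_succ, Finset.sum_range_zero, zero_add] at h1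
  have h5 : tay F P 0 + tay F P 1 + tay F P 2 + tay F P 3 + tay F P 4 = F := h1
  rw [h4, zero_add] at h5
  exact h5.symm

theorem local_dir {M : Type*} [Field M] (F : MvPolynomial (Fin 2) M) (hF : F.totalDegree ≤ 4)
    [IsDedekindDomain (CR F)] (P : Fin 2 → M) (hP : MvPolynomial.eval P F = 0)
    (h : Ideal.Quotient.mk (Ideal.span {F}) (tay F P 3 + 2 * tay F P 4) ∈ (ptIdeal F P) ^ 4) :
    ∃ δ : Fin 2 → M, δ ≠ 0 ∧ (lin F P δ).coeff 1 = 0 ∧ (lin F P δ).coeff 3 = 0 := by
  classical
  have hmax := pt_max F P hP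
  have hne := pt_ne_bot F P hP
  obtain ⟨m, hm⟩ : ∃ m, m = ptIdeal F P := ⟨_, rfl⟩
  rw [← hm] at h hmax hne
  have hprime : m.IsPrime := hmax.isPrime
  obtain ⟨u, hu⟩ : ∃ u : Fin 2 → CR F, ∀ i, u i = Ideal.Quotient.mk (Ideal.span {F})
    (MvPolynomial.X i - MvPolynomial.C (P i)) := ⟨_, fun i => rfl⟩
  have hmu : m = Ideal.span (Set.range u) := by
    rw [hm]
    unfold ptIdeal
    rw [Ideal.map_span, ← Set.range_comp]
    congr 2
    funext i
    exact (hu i).symm
  have hum : ∀ i, u i ∈ m := by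
    intro i
    rw [hmu]
    exact Ideal.subset_span (Set.mem_range_self i)
  obtain ⟨q, hq⟩ : ∃ q : Fin 2 → CR F, ∀ i, q i = algebraMap M (CR F) (P i) := ⟨_, fun i => rfl⟩
  have htay : ∀ i, Ideal.Quotient.mk (Ideal.span {F}) (tay F P i) = (lin F q u).coeff i := by
    intro i
    have h1 := coeff_lin_map F (Ideal.Quotient.mkₐ M (Ideal.span {F}))
      (fun i => MvPolynomial.C (P i)) (fun i => MvPolynomial.X i - MvPolynomial.C (P i)) i
    have h2 : (fun i => (Ideal.Quotient.mkₐ M (Ideal.span {F}))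
        (MvPolynomial.X i - MvPolynomial.C (P i))) = u := by
      funext i
      exact (hu i).symm
    have h3 : (fun i => (Ideal.Quotient.mkₐ M (Ideal.span {F}))
        (MvPolynomial.C (P i))) = q := by
      funext i
      exact (hq i).symm
    rw [h2, h3] at h1
    exact h1.symm
  -- the linear form
  obtain ⟨l, hl⟩ : ∃ l : Fin 2 → M, ∀ i, l i = MvPolynomial.eval P (MvPolynomial.pderiv i F) :=
    ⟨_, fun i => rfl⟩
  have hcm : ∀ n, (lin F q u).coeff n ∈ m ^ n := by
    intro n
    rw [hmu]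
    exact lin_coeff_mem F q u n
  have hsum : (lin F q u).coeff 1 + (lin F q u).coeff 2 + (lin F q u).coeff 3 +
      (lin F q u).coeff 4 = 0 := by
    have h1 := congrArg (Ideal.Quotient.mk (Ideal.span {F})) (sum_tay F hF P hP)
    have h2 : Ideal.Quotient.mk (Ideal.span {F}) F = 0 :=
      Ideal.Quotient.eq_zero_iff_mem.mpr (Ideal.mem_span_singleton_self F)
    rw [map_add, map_add, map_add, htay, htay, htay, htay, h2] at h1
    exact h1.symm
  -- the linear form is not zero
  have hl0 : l 0 ≠ 0 ∨ l 1 ≠ 0 := by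
    obtain ⟨c, d, hcd, hmem⟩ := two (M := M) m m hne hmax (hm ▸ pt_res F P hP) (u 0) (u 1)
      (hum 0) (hum 1)
    have h1 : c • u 0 + d • u 1 = Ideal.Quotient.mk (Ideal.span {F})
        (MvPolynomial.C c * (MvPolynomial.X 0 - MvPolynomial.C (P 0)) +
          MvPolynomial.C d * (MvPolynomial.X 1 - MvPolynomial.C (P 1))) := by
      have s1 : c • u 0 = algebraMap M (CR F) c * u 0 := Algebra.smul_def c (u 0)
      have s2 : d • u 1 = algebraMap M (CR F) d * u 1 := Algebra.smul_def d (u 1)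
      rw [map_add, map_mul, map_mul, ← hu, ← hu, s1, s2]
      rfl
    have h2 : m * m = ((Ideal.span (Set.range fun i => (MvPolynomial.X i - MvPolynomial.C (P i) :
        MvPolynomial (Fin 2) M))) ^ 2).map (Ideal.Quotient.mk (Ideal.span {F})) := by
      have s1 : m * m = m ^ 2 := (pow_two m).symm
      rw [s1, Ideal.map_pow, hm]
      rfl
    rw [h1, h2, Ideal.mem_quotient_iff_mem_sup] at hmem
    obtain ⟨g, hg, f, hf, hgf⟩ := Submodule.mem_sup.mp hmem
    obtain ⟨b, rfl⟩ := Ideal.mem_span_singleton'.mp hf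
    have h3 : ∀ j, MvPolynomial.eval P (MvPolynomial.pderiv j
        (MvPolynomial.C c * (MvPolynomial.X 0 - MvPolynomial.C (P 0)) +
          MvPolynomial.C d * (MvPolynomial.X 1 - MvPolynomial.C (P 1)))) =
        MvPolynomial.eval P b * l j := by
      intro j
      rw [← hgf, map_add, map_add, RL_deriv P g hg j, zero_add, MvPolynomial.pderiv_mul, map_add,
        map_mul, map_mul, hP, mul_zero, zero_add, hl]
    by_contra hcon
    push Not at hcon
    have h4 := h3 0
    have h5 := h3 1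
    rw [hcon.1, mul_zero] at h4
    rw [hcon.2, mul_zero] at h5
    have e1 : (MvPolynomial.pderiv 0) (MvPolynomial.X 1 : MvPolynomial (Fin 2) M) = 0 :=
      MvPolynomial.pderiv_X_of_ne (by decide)
    have e2 : (MvPolynomial.pderiv 1) (MvPolynomial.X 0 : MvPolynomial (Fin 2) M) = 0 :=
      MvPolynomial.pderiv_X_of_ne (by decide)
    simp only [map_add, MvPolynomial.pderiv_mul, MvPolynomial.pderiv_C, map_sub, zero_mul,
      MvPolynomial.pderiv_X_self, e1, e2, sub_zero, mul_one, mul_zero, add_zero, zero_add,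
      MvPolynomial.eval_C] at h4 h5
    rcases hcd with hc | hd
    · exact hc h4
    · exact hd h5
  have h3 : (lin F q u).coeff 3 ∈ m ^ 4 := by
    rw [map_add, map_mul, htay, htay] at h
    have e : (lin F q u).coeff 3 = ((lin F q u).coeff 3 +
        Ideal.Quotient.mk (Ideal.span {F}) 2 * (lin F q u).coeff 4) -
        Ideal.Quotient.mk (Ideal.span {F}) 2 * (lin F q u).coeff 4 :=
      (add_sub_cancel_right _ _).symm
    rw [e]
    exact (m ^ 4).sub_mem h (Ideal.mul_mem_left _ _ (hcm 4))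
  exact RL_abs F P m hprime hne u q hmu hq hsum h3 l hl hl0

end Pool.Agent.TQU
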