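import Pool.Agent.TQU.Pt

/-!
[TQU-R] two polynomials of `M[X,Y]` (`M` algebraically closed) without common zero `≠ 0` are relatively
prime.

Proof. (1) `exists_zero`: write `d` as a polynomial in one of the variables which occurs in it
(`MvPolynomial.finSuccEquiv`, or swap the variables with `MvPolynomial.rename`): its leading
coefficient is a nonzero polynomial in the other variable, so there is a value `x₀ ≠ 0` of the other
variable where it does not vanish (`M` is infinite), and then a root of the resulting nonconstant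
polynomial in one variable. The point is `≠ 0` because `x₀ ≠ 0`.
(2) `M[X,Y]` is a UFD; a common divisor `d` of `a` and `b` is `≠ 0` (else `a = b = 0` vanish at
`(1,0)`), and if `d` is not a unit, `exists_zero` gives a common zero `≠ 0` of `a` and `b`. So `a`, `b` are
relatively prime (`IsRelPrime`), and `b ∣ g a` implies `b ∣ g`
(`IsRelPrime.dvd_of_dvd_mul_right`, for a `DecompositionMonoid`).
-/

namespace Pool.Agent.TQU

theorem RR_one {M : Type*} [Field M] [IsAlgClosed M] (c : MvPolynomial (Fin 1) M)
    (h : ∀ s : Fin 1 → M, MvPolynomial.eval s c ≠ 0) : IsUnit c := by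
  classical
  let s0 : Fin 0 → M := fun i => i.elim0
  let q : Polynomial M := (MvPolynomial.finSuccEquiv M 0 c).map (MvPolynomial.eval s0)
  have hev : ∀ s : Fin 1 → M, MvPolynomial.eval s c = q.eval (s 0) := by
    intro s
    have h1 : s = Fin.cons (s 0) s0 := by
      funext i
      have h2 : i = 0 := Subsingleton.elim i 0
      rw [h2, Fin.cons_zero]
    conv_lhs => rw [h1]
    exact MvPolynomial.eval_eq_eval_mv_eval' s0 (s 0) c
  have hdeg : q.degree = 0 := by
    by_contra hne
    obtain ⟨x, hx⟩ := IsAlgClosed.exists_root q hne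
    apply h (fun _ => x)
    rw [hev]
    exact hx
  obtain ⟨a, ha⟩ : ∃ a, q = Polynomial.C a := ⟨_, Polynomial.eq_C_of_degree_eq_zero hdeg⟩
  have hc : c = MvPolynomial.C a := by
    apply MvPolynomial.funext
    intro s
    rw [hev, ha, Polynomial.eval_C, MvPolynomial.eval_C]
  have ha0 : a ≠ 0 := by
    rintro rfl
    apply h (fun _ => 0)
    rw [hc, map_zero, map_zero]
  rw [hc]
  exact (isUnit_iff_ne_zero.mpr ha0).map MvPolynomial.C

theorem exists_zero {M : Type*} [Field M] [IsAlgClosed M] (d : MvPolynomial (Fin 2) M)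
    (h0 : d ≠ 0) (hu : ¬ IsUnit d) : ∃ δ : Fin 2 → M, δ ≠ 0 ∧ MvPolynomial.eval δ d = 0 := by
  classical
  by_contra hno
  push Not at hno
  apply hu
  let q := MvPolynomial.finSuccEquiv M 1 d
  have hq0 : q ≠ 0 := by
    intro h1
    apply h0
    exact (MvPolynomial.finSuccEquiv M 1).injective (h1.trans (map_zero _).symm)
  have hroot : ∀ (s : Fin 1 → M) (x : M), (Fin.cons x s : Fin 2 → M) ≠ 0 →
      (q.map (MvPolynomial.eval s)).eval x ≠ 0 := by
    intro s x hne
    rw [← MvPolynomial.eval_eq_eval_mv_eval' s x d]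
    exact hno _ hne
  have hdeg : q.natDegree = 0 := by
    by_contra hd
    have hc : q.leadingCoeff * MvPolynomial.X 0 ≠ 0 :=
      mul_ne_zero (Polynomial.leadingCoeff_ne_zero.mpr hq0) (MvPolynomial.X_ne_zero 0)
    have hex : ∃ s : Fin 1 → M, MvPolynomial.eval s (q.leadingCoeff * MvPolynomial.X 0) ≠ 0 := by
      by_contra hall
      push Not at hall
      apply hc
      apply MvPolynomial.funext
      intro s
      rw [hall s, map_zero]
    obtain ⟨s, hs⟩ := hex
    rw [map_mul, MvPolynomial.eval_X] at hs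
    have hs1 := left_ne_zero_of_mul hs
    have hs2 := right_ne_zero_of_mul hs
    have hnd : (q.map (MvPolynomial.eval s)).natDegree = q.natDegree :=
      Polynomial.natDegree_map_of_leadingCoeff_ne_zero _ hs1
    have hne : (q.map (MvPolynomial.eval s)).degree ≠ 0 := by
      intro h1
      have h2 := Polynomial.natDegree_eq_of_degree_eq_some h1
      rw [hnd] at h2
      exact hd h2
    obtain ⟨x, hx⟩ := IsAlgClosed.exists_root _ hne
    refine hroot s x ?_ hx
    intro h1
    apply hs2
    have h2 := congrFun h1 1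
    have h3 : (Fin.cons x s : Fin 2 → M) 1 = s 0 := rfl
    rw [← h3, h2]
    rfl
  obtain ⟨c, hc⟩ : ∃ c, q = Polynomial.C c := ⟨_, Polynomial.eq_C_of_natDegree_eq_zero hdeg⟩
  have hcu : IsUnit c := by
    apply RR_one
    intro s
    have h1 := hroot s 1 (by
      intro h2
      have h3 := congrFun h2 0
      have h4 : (Fin.cons 1 s : Fin 2 → M) 0 = 1 := rfl
      rw [h4] at h3
      exact one_ne_zero h3)
    rw [hc, Polynomial.map_C, Polynomial.eval_C] at h1
    exact h1
  have hqu : IsUnit q := by
    rw [hc]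
    exact hcu.map Polynomial.C
  have h5 := hqu.map (MvPolynomial.finSuccEquiv M 1).symm
  have h6 : (MvPolynomial.finSuccEquiv M 1).symm q = d :=
    (MvPolynomial.finSuccEquiv M 1).symm_apply_apply d
  rwa [h6] at h5

theorem relprime {M : Type*} [Field M] [IsAlgClosed M] (a b : MvPolynomial (Fin 2) M)
    (h : ∀ δ : Fin 2 → M, δ ≠ 0 → ¬ (MvPolynomial.eval δ a = 0 ∧ MvPolynomial.eval δ b = 0))
    (g : MvPolynomial (Fin 2) M) (hg : b ∣ g * a) : b ∣ g := by
  classical
  have hrel : IsRelPrime b a := by
    intro d hdb hda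
    by_contra hu
    by_cases h0 : d = 0
    · rw [h0, zero_dvd_iff] at hdb hda
      apply h (fun _ => 1)
      · intro h1
        have h2 := congrFun h1 0
        exact one_ne_zero h2
      · rw [hdb, hda, map_zero]
        exact ⟨rfl, rfl⟩
    · obtain ⟨δ, hδ, hδ0⟩ := exists_zero d h0 hu
      obtain ⟨u, rfl⟩ := hdb
      obtain ⟨v, rfl⟩ := hda
      apply h δ hδ
      rw [map_mul, map_mul, hδ0, zero_mul, zero_mul]
      exact ⟨rfl, rfl⟩
  exact hrel.dvd_of_dvd_mul_right hg

end Pool.Agent.TQU
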