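import Pool.Agent.TQU.RD
import Pool.Agent.TQU.RR
import Pool.Agent.TQU.RL

/-!
# The map `g ↦ g(P + T X)` and the polynomial `H`
-/

namespace Pool.Agent.TQU

open Polynomial

variable {M : Type*} [Field M]

/-- `g ↦ g(P + T X) ∈ M[X_0,X_1][T]` -/
noncomputable def hat (P : Fin 2 → M) : MvPolynomial (Fin 2) M →ₐ[M] Polynomial (MvPolynomial (Fin 2) M) :=
  MvPolynomial.aeval (fun i => C (MvPolynomial.C (P i)) + X * C (MvPolynomial.X i))

theorem hat_eq (P : Fin 2 → M) (g : MvPolynomial (Fin 2) M) :
    hat P g = lin g (fun i => MvPolynomial.C (P i)) MvPolynomial.X := rfl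

theorem hat_natDegree_le (P : Fin 2 → M) (g : MvPolynomial (Fin 2) M) (n : ℕ)
    (hg : g.totalDegree ≤ n) : (hat P g).natDegree ≤ n := by
  have h1 : hat P g = MvPolynomial.aeval (fun i => C (MvPolynomial.C (P i)) + X * C (MvPolynomial.X i))
      (MvPolynomial.map (algebraMap M (MvPolynomial (Fin 2) M)) g) := by
    rw [hat, MvPolynomial.aeval_map_algebraMap]
  rw [h1]
  have h2 := MvPolynomial.aeval_natDegree_le (m := n) (n := 1)
    (MvPolynomial.map (algebraMap M (MvPolynomial (Fin 2) M)) g)
    (le_trans (Finset.sup_mono (MvPolynomial.support_map_subset _ _)) hg)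
    (fun i => C (MvPolynomial.C (P i)) + X * C (MvPolynomial.X i)) (fun i => by
      refine le_trans (natDegree_add_le _ _) (max_le (by simp) ?_)
      exact le_trans (natDegree_mul_C_le _ _) natDegree_X_le)
  simpa using h2

/-- value of the coefficient -/
theorem eval_coeff_hat (P δ : Fin 2 → M) (g : MvPolynomial (Fin 2) M) (i : ℕ) :
    MvPolynomial.eval δ ((hat P g).coeff i) = (lin g P δ).coeff i := by
  have h := coeff_lin_map g (MvPolynomial.aeval δ : MvPolynomial (Fin 2) M →ₐ[M] M)
    (fun i => MvPolynomial.C (P i)) MvPolynomial.X i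
  simp only [MvPolynomial.aeval_C, MvPolynomial.aeval_X, Algebra.algebraMap_self,
    RingHom.id_apply] at h
  rw [hat_eq, h]
  rfl

theorem hat_injective (P : Fin 2 → M) : Function.Injective (hat P) := by
  -- `T = 1`, then `X ↦ X - P`
  let ψ : MvPolynomial (Fin 2) M →ₐ[M] MvPolynomial (Fin 2) M :=
    MvPolynomial.aeval (fun i => MvPolynomial.X i - MvPolynomial.C (P i))
  let e : Polynomial (MvPolynomial (Fin 2) M) →ₐ[M] MvPolynomial (Fin 2) M :=
    (Polynomial.aeval (1 : MvPolynomial (Fin 2) M)).restrictScalars M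
  have h : (ψ.comp e).comp (hat P) = AlgHom.id M _ := by
    refine MvPolynomial.algHom_ext (fun i => ?_)
    simp [hat, ψ, e]
  intro a b hab
  have h1 := congrArg (ψ.comp e) hab
  have h2 : ∀ c, (ψ.comp e) (hat P c) = c := fun c => AlgHom.congr_fun h c
  rwa [h2, h2] at h1

theorem hat_coeff_isHomogeneous (P : Fin 2 → M) (g : MvPolynomial (Fin 2) M) (i : ℕ) :
    ((hat P g).coeff i).IsHomogeneous i := by
  let A : Subalgebra M (Polynomial (MvPolynomial (Fin 2) M)) :=
    { carrier := {u | ∀ i, (u.coeff i).IsHomogeneous i}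
      mul_mem' := by
        intro a b ha hb i
        rw [coeff_mul]
        refine MvPolynomial.IsHomogeneous.sum _ _ _ (fun x hx => ?_)
        rw [← (Finset.HasAntidiagonal.mem_antidiagonal.1 hx)]
        exact (ha _).mul (hb _)
      add_mem' := by
        intro a b ha hb i
        rw [coeff_add]
        exact (ha i).add (hb i)
      algebraMap_mem' := by
        intro r i
        have : (algebraMap M (Polynomial (MvPolynomial (Fin 2) M))) r
            = C (MvPolynomial.C r) := rfl
        rw [this, coeff_C]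
        split_ifs with h
        · rw [h]; exact MvPolynomial.isHomogeneous_C _ _
        · exact MvPolynomial.isHomogeneous_zero _ _ _ }
  have hgen : ∀ i, C (MvPolynomial.C (P i)) + X * C (MvPolynomial.X i) ∈ A := by
    intro i j
    rw [coeff_add, coeff_C, coeff_mul_C, coeff_X]
    rcases j with _ | j
    · simp only [if_true, Nat.one_ne_zero, if_false, zero_mul, add_zero]
      exact MvPolynomial.isHomogeneous_C _ _
    · rcases j with _ | j
      · simp
        exact MvPolynomial.isHomogeneous_X _ _
      · simp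
        exact MvPolynomial.isHomogeneous_zero _ _ _
  have h2 := MvPolynomial.comp_aeval_apply (φ := A.val) (f := fun i => (⟨_, hgen i⟩ : A)) g
  have h3 : hat P g = ((MvPolynomial.aeval (fun i => (⟨_, hgen i⟩ : A)) g : A) :
      Polynomial (MvPolynomial (Fin 2) M)) := h2.symm
  rw [h3]
  exact (MvPolynomial.aeval (fun i => (⟨_, hgen i⟩ : A)) g : A).2 i

/-- `hat` of a Taylor form -/
theorem hat_tay (F : MvPolynomial (Fin 2) M) (P : Fin 2 → M) (i : ℕ) :
    hat P (tay F P i) = C ((hat P F).coeff i) * X ^ i := by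
  -- `F(P + T' (X - P))`, then `X ↦ P + T X`
  have h1 := coeff_lin_map F (hat P) (fun i => MvPolynomial.C (P i))
    (fun i => MvPolynomial.X i - MvPolynomial.C (P i)) i
  rw [tay, ← h1]
  have h2 : (fun i => hat P (MvPolynomial.C (P i))) = fun i => C (MvPolynomial.C (P i)) := by
    funext i; simp [hat]
  have h3 : (fun i => hat P (MvPolynomial.X i - MvPolynomial.C (P i)))
      = fun i => X * C (MvPolynomial.X i) := by
    funext i; rw [map_sub]; rw [congrFun h2 i]; simp [hat]
  rw [h2, h3, lin_scale]
  -- coefficient of `(lin F (C P) (C X)).comp (C X * X)`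
  have h4 : lin F (fun i => (C (MvPolynomial.C (P i)) : Polynomial (MvPolynomial (Fin 2) M)))
      (fun i => C (MvPolynomial.X i)) = (hat P F).map (C : MvPolynomial (Fin 2) M →+* _) := by
    let cc : MvPolynomial (Fin 2) M →ₐ[M] Polynomial (MvPolynomial (Fin 2) M) :=
      (Polynomial.CAlgHom (R := MvPolynomial (Fin 2) M) (A := MvPolynomial (Fin 2) M)).restrictScalars M
    have h5 := lin_map F cc (fun i => MvPolynomial.C (P i)) MvPolynomial.X
    exact h5.symm
  rw [h4, Polynomial.comp_C_mul_X_coeff, coeff_map]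

end Pool.Agent.TQU
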