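import Pool.Agent.TQU.Cnt

/-!
# The partners of a point of a plane quartic
-/

namespace Pool.Agent.TQU

open Polynomial

variable {M : Type*} [Field M]

theorem lin_eq_sum (F : MvPolynomial (Fin 2) M) (hF : F.totalDegree ≤ 4) (P δ : Fin 2 → M)
    (hP : MvPolynomial.eval P F = 0) :
    lin F P δ = C ((lin F P δ).coeff 1) * X + C ((lin F P δ).coeff 2) * X ^ 2
      + C ((lin F P δ).coeff 3) * X ^ 3 + C ((lin F P δ).coeff 4) * X ^ 4 := by
  have h := (lin F P δ).as_sum_range' 5 (Nat.lt_succ_of_le (lin_natDegree_le F hF P δ))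
  conv_lhs => rw [h]
  simp only [Finset.sum_range_succ, Finset.sum_range_zero, zero_add, ← C_mul_X_pow_eq_monomial,
    lin_coeff_zero, hP, C_0, zero_mul, pow_one]

theorem mk_HH (F : MvPolynomial (Fin 2) M) (hF : F.totalDegree ≤ 4) (P : Fin 2 → M)
    (hP : MvPolynomial.eval P F = 0) :
    Ideal.Quotient.mk (Ideal.span {F}) (HH F P)
      = - Ideal.Quotient.mk (Ideal.span {F}) (tay F P 3 + 2 * tay F P 4) := by
  rw [← map_neg, Ideal.Quotient.eq, Ideal.mem_span_singleton']
  refine ⟨2, ?_⟩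
  have h := sum_tay F hF P hP
  rw [HH]
  linear_combination 2 * h

theorem mk_tay_mem (F : MvPolynomial (Fin 2) M) (P : Fin 2 → M) (i : ℕ) :
    Ideal.Quotient.mk (Ideal.span {F}) (tay F P i) ∈ (ptIdeal F P) ^ i := by
  rw [ptIdeal, ← Ideal.map_pow]
  exact Ideal.mem_map_of_mem _ (lin_coeff_mem F _ _ i)

theorem mk_HH_mem (F : MvPolynomial (Fin 2) M) (hF : F.totalDegree ≤ 4) (P : Fin 2 → M)
    (hP : MvPolynomial.eval P F = 0) :
    Ideal.Quotient.mk (Ideal.span {F}) (HH F P) ∈ (ptIdeal F P) ^ 3 := by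
  rw [mk_HH F hF P hP]
  refine neg_mem ?_
  rw [map_add, map_mul]
  refine add_mem (mk_tay_mem F P 3) (Ideal.mul_mem_left _ _ ?_)
  exact Ideal.pow_le_pow_right (by norm_num) (mk_tay_mem F P 4)

/-- extracting powers of a prime from a product -/
theorem extract_gen {R α : Type*} [CommRing R] [IsDedekindDomain R] (f : α → Ideal R) (P : α)
    (hne : f P ≠ ⊥) (hmax : (f P).IsMaximal) (n : ℕ) (s : Multiset α)
    (hs : ∀ Q ∈ s, (f Q).IsMaximal ∧ (f P = f Q → P = Q))
    (h : (f P) ^ n ∣ (s.map f).prod) :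
    ∃ s', s = Multiset.replicate n P + s' := by
  induction n generalizing s with
  | zero => exact ⟨s, by simp⟩
  | succ n ih =>
    have hprime : Prime (f P) := Ideal.prime_of_isPrime hne hmax.isPrime
    have h1 : f P ∣ (s.map f).prod := dvd_trans (dvd_pow_self _ (Nat.succ_ne_zero n)) h
    obtain ⟨Q, hQ, hdvd⟩ := hprime.exists_mem_multiset_map_dvd h1
    have hPQ : P = Q := by
      refine (hs Q hQ).2 ?_
      have hle := Ideal.dvd_iff_le.1 hdvd
      exact ((hs Q hQ).1.eq_of_le hmax.ne_top hle).symm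
    subst hPQ
    obtain ⟨s1, rfl⟩ := Multiset.exists_cons_of_mem hQ
    rw [Multiset.map_cons, Multiset.prod_cons, pow_succ', mul_dvd_mul_iff_left hne] at h
    obtain ⟨s', rfl⟩ := ih s1 (fun Q hQ => hs Q (Multiset.mem_cons_of_mem hQ)) h
    exact ⟨s', by rw [Multiset.replicate_succ, Multiset.cons_add]⟩

/-- extracting powers of a point -/
theorem extract (F : MvPolynomial (Fin 2) M) [IsDedekindDomain (CR F)] (P : Fin 2 → M)
    (hP : MvPolynomial.eval P F = 0) (n : ℕ) (s : Multiset (Fin 2 → M))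
    (hs : ∀ Q ∈ s, MvPolynomial.eval Q F = 0)
    (h : (ptIdeal F P) ^ n ∣ (s.map (ptIdeal F)).prod) :
    ∃ s', s = Multiset.replicate n P + s' :=
  extract_gen (ptIdeal F) P (pt_ne_bot F P hP) (pt_max F P hP) n s
    (fun Q hQ => ⟨pt_max F Q (hs Q hQ), pt_inj F P Q hP (hs Q hQ)⟩) h

theorem partners [IsAlgClosed M] (F : MvPolynomial (Fin 2) M) (hF : F.totalDegree ≤ 4)
    (P : Fin 2 → M) (hP : MvPolynomial.eval P F = 0) [IsDedekindDomain (CR F)]
    (hinf : ∀ δ : Fin 2 → M, δ ≠ 0 → ¬ ((lin F P δ).coeff 4 = 0 ∧ (lin F P δ).coeff 3 = 0)) :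
    ∃ s : Multiset (Fin 2 → M), 6 ≤ s.card ∧
      (∀ Q ∈ s, MvPolynomial.eval Q F = 0 ∧ SymPair F P Q) ∧
      ((ptIdeal F P) ^ 3 * (s.map (ptIdeal F)).prod).IsPrincipal := by
  obtain ⟨s0, hs0, hprod⟩ := factor_pts F (HH F P) (not_dvd_HH F hF P hinf)
  have h3 : (ptIdeal F P) ^ 3 ∣ (s0.map (ptIdeal F)).prod := by
    rw [← hprod, Ideal.dvd_span_singleton]
    exact mk_HH_mem F hF P hP
  obtain ⟨s, rfl⟩ := extract F P hP 3 s0 (fun Q hQ => (hs0 Q hQ).1) h3
  have h9 := nine F hF P hP hinf _ (fun Q hQ => (hs0 Q hQ).1) hprod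
  rw [Multiset.card_add, Multiset.card_replicate] at h9
  have hprod' : Ideal.span {Ideal.Quotient.mk (Ideal.span {F}) (HH F P)}
      = (ptIdeal F P) ^ 3 * (s.map (ptIdeal F)).prod := by
    rw [hprod, Multiset.map_add, Multiset.prod_add, Multiset.map_replicate,
      Multiset.prod_replicate]
  refine ⟨s, by omega, ?_, ?_⟩
  · intro Q hQ
    obtain ⟨hQF, hQH⟩ := hs0 Q (Multiset.mem_add.2 (Or.inr hQ))
    refine ⟨hQF, ?_⟩
    by_cases hPQ : Q = P
    · subst hPQ
      -- `Q` with multiplicity four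
      have h4 : Ideal.Quotient.mk (Ideal.span {F}) (tay F Q 3 + 2 * tay F Q 4)
          ∈ (ptIdeal F Q) ^ 4 := by
        have h5 : Ideal.Quotient.mk (Ideal.span {F}) (HH F Q) ∈ (ptIdeal F Q) ^ 4 := by
          rw [← Ideal.dvd_span_singleton, hprod']
          obtain ⟨s1, rfl⟩ := Multiset.exists_cons_of_mem hQ
          rw [Multiset.map_cons, Multiset.prod_cons]
          exact ⟨(s1.map (ptIdeal F)).prod, by ring⟩
        rw [mk_HH F hF Q hP] at h5
        exact neg_mem_iff.1 h5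
      obtain ⟨δ, hδ, hc1, hc3⟩ := local_dir F hF Q hP h4
      refine ⟨δ, hδ, 0, (lin F Q δ).coeff 4, (lin F Q δ).coeff 2,
        fun h => hinf δ hδ ⟨h, hc3⟩, fun i => by ring, ?_⟩
      conv_lhs => rw [lin_eq_sum F hF Q δ hP, hc1, hc3]
      simp only [C_0]
      ring
    · set δ : Fin 2 → M := fun i => Q i - P i with hδ
      have hδ0 : δ ≠ 0 := by
        intro h
        refine hPQ (funext fun i => ?_)
        have := congrFun h i
        simp only [hδ, Pi.zero_apply] at this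
        linear_combination this
      have e1 : (lin F P δ).eval 1 = 0 := by
        rw [lin_eval]
        have : (fun i => P i + 1 * δ i) = Q := by funext i; simp only [hδ]; ring
        rw [this]
        exact hQF
      rw [lin_eq_sum F hF P δ hP] at e1
      simp only [eval_add, eval_mul, eval_C, eval_X, eval_pow, one_pow, mul_one] at e1
      have e2 : 2 * (lin F P δ).coeff 1 + 2 * (lin F P δ).coeff 2 + (lin F P δ).coeff 3 = 0 := by
        rw [HH, map_add, map_add, map_mul, map_mul, eval_tay, eval_tay, eval_tay] at hQH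
        simpa using hQH
      have e3 : (lin F P δ).coeff 3 = - (2 * (lin F P δ).coeff 4) := by
        linear_combination 2 * e1 - e2
      have e4 : (lin F P δ).coeff 1 = (lin F P δ).coeff 4 - (lin F P δ).coeff 2 := by
        linear_combination e1 - e3
      refine ⟨δ, hδ0, 1, (lin F P δ).coeff 4, (lin F P δ).coeff 2 - (lin F P δ).coeff 4,
        ?_, fun i => by simp only [hδ]; ring, ?_⟩
      · intro h
        exact hinf δ hδ0 ⟨h, by rw [e3, h]; ring⟩
      · conv_lhs => rw [lin_eq_sum F hF P δ hP, e3, e4]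
        simp only [C_sub, C_neg, C_mul, C_1, map_ofNat]
        ring
  · rw [← hprod']
    exact ⟨⟨_, rfl⟩⟩

end Pool.Agent.TQU
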