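import Pool.Agent.TQU.Base

/-!
# Points of the plane curve `F = 0` as ideals of its coordinate ring
-/

namespace Pool.Agent.TQU

end Pool.Agent.TQU
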