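import Pool.Agent.TQU.Pt

/-!
[TQU-D] descent of degrees. `S = M[X,Y]`, `α F + β H` with `F`, `H`, `α`, `β` in `S[T]`
(`F` of degree 4, `H` of degree 3 in `T`, leading coefficients `a`, `b`, `b` homogeneous of degree 3 and
`b ∣ g a → b ∣ g`). If `deg_T (α F + β H) ≤ 3`, then `α F + β H = c H` with `c ∈ S`.

Proof: strong induction on `n = natDegree α`. If `α = 0`: `β H` has degree `≤ 3`, so `β` is constant
(or zero). If `α ≠ 0`: the coefficient of `T^(n+4)` of `α F + β H` is `0` and `α F` has degree `n + 4`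
(`S` is a domain), so `β H` has degree `n + 4`, `natDegree β = n + 1` and
`lc α * a = - lc β * b`. So `b ∣ lc α * a`, `b ∣ lc α`, `lc α = b γ` (`γ ≠ 0`). As
`totalDegree (lc α) ≤ n` and `totalDegree (b γ) = 3 + totalDegree γ`, `n ≥ 3` and
`totalDegree γ ≤ n - 3`. Replace `α` by `α - C γ X^(n-3) H` (smaller degree or zero; its i-th
coefficient still has total degree `≤ i`) and `β` by `β + C γ X^(n-3) F`.
-/

namespace Pool.Agent.TQU

open Polynomial

theorem RD_aux {M : Type*} [Field M] (F H : Polynomial (MvPolynomial (Fin 2) M))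
    (hF : F.natDegree = 4) (hH : H.natDegree = 3) (hb : H.leadingCoeff.IsHomogeneous 3)
    (hcop : ∀ g, H.leadingCoeff ∣ g * F.leadingCoeff → H.leadingCoeff ∣ g)
    (hHd : ∀ i, (H.coeff i).totalDegree ≤ i) (n : ℕ) :
    ∀ α β : Polynomial (MvPolynomial (Fin 2) M), (α = 0 ∨ α.natDegree < n) →
      (∀ i, (α.coeff i).totalDegree ≤ i) → (α * F + β * H).natDegree ≤ 3 →
      ∃ c : MvPolynomial (Fin 2) M, α * F + β * H = C c * H := by
  have hH0 : H ≠ 0 := by
    rintro rfl
    rw [natDegree_zero] at hH
    omega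
  have hF0 : F ≠ 0 := by
    rintro rfl
    rw [natDegree_zero] at hF
    omega
  have base : ∀ β : Polynomial (MvPolynomial (Fin 2) M), (0 * F + β * H).natDegree ≤ 3 →
      ∃ c : MvPolynomial (Fin 2) M, 0 * F + β * H = C c * H := by
    intro β hd
    rw [zero_mul, zero_add] at hd ⊢
    by_cases hβ : β = 0
    · exact ⟨0, by rw [hβ, C_0]⟩
    · rw [natDegree_mul hβ hH0, hH] at hd
      refine ⟨β.coeff 0, ?_⟩
      rw [← eq_C_of_natDegree_eq_zero (by omega)]
  induction n with
  | zero =>
    intro α β hα _ hd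
    rcases hα with rfl | h
    · exact base β hd
    · omega
  | succ n ih =>
    intro α β hα hαd hd
    by_cases hα0 : α = 0
    · subst hα0
      exact base β hd
    have hk : α.natDegree < n + 1 := hα.resolve_left hα0
    have e1 : (α * F).natDegree = α.natDegree + 4 := by rw [natDegree_mul hα0 hF0, hF]
    have e2 : (α * F).coeff (α.natDegree + 4) = α.leadingCoeff * F.leadingCoeff := by
      rw [← e1, coeff_natDegree, leadingCoeff_mul]
    have e3 : (β * H).coeff (α.natDegree + 4) = -(α.leadingCoeff * F.leadingCoeff) := by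
      have h1 : (α * F + β * H).coeff (α.natDegree + 4) = 0 :=
        coeff_eq_zero_of_natDegree_lt (by omega)
      rw [coeff_add, e2] at h1
      exact (neg_eq_of_add_eq_zero_right h1).symm
    have hne : α.leadingCoeff * F.leadingCoeff ≠ 0 :=
      mul_ne_zero (leadingCoeff_ne_zero.2 hα0) (leadingCoeff_ne_zero.2 hF0)
    have e4 : (β * H).natDegree = α.natDegree + 4 := by
      apply le_antisymm
      · have h1 : β * H = (α * F + β * H) - α * F := by ring
        rw [h1]
        refine (natDegree_sub_le _ _).trans (max_le (by omega) e1.le)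
      · apply le_natDegree_of_ne_zero
        rw [e3]
        exact neg_ne_zero.2 hne
    have hβ0 : β ≠ 0 := by
      rintro rfl
      rw [zero_mul, natDegree_zero] at e4
      omega
    have e5 : β.leadingCoeff * H.leadingCoeff = -(α.leadingCoeff * F.leadingCoeff) := by
      rw [← leadingCoeff_mul, ← coeff_natDegree, e4, e3]
    obtain ⟨γ, hγ⟩ := hcop α.leadingCoeff ⟨-β.leadingCoeff, by
      rw [mul_neg, mul_comm H.leadingCoeff, e5, neg_neg]⟩
    have hb0 : H.leadingCoeff ≠ 0 := leadingCoeff_ne_zero.2 hH0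
    have hγ0 : γ ≠ 0 := by
      rintro rfl
      rw [mul_zero] at hγ
      exact leadingCoeff_ne_zero.2 hα0 hγ
    have e6 : (H.leadingCoeff * γ).totalDegree = 3 + γ.totalDegree := by
      rw [MvPolynomial.totalDegree_mul_of_isDomain hb0 hγ0, hb.totalDegree hb0]
    have e7 : α.leadingCoeff.totalDegree ≤ α.natDegree := by
      rw [← coeff_natDegree]
      exact hαd _
    rw [hγ, e6] at e7
    have hX : (X : Polynomial (MvPolynomial (Fin 2) M)) ^ (α.natDegree - 3) ≠ 0 :=
      pow_ne_zero _ X_ne_zero
    have hC : (C γ : Polynomial (MvPolynomial (Fin 2) M)) ≠ 0 := C_ne_zero.2 hγ0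
    have hQ0 : C γ * X ^ (α.natDegree - 3) * H ≠ 0 := mul_ne_zero (mul_ne_zero hC hX) hH0
    have hQd : (C γ * X ^ (α.natDegree - 3) * H).natDegree = α.natDegree := by
      rw [natDegree_mul (mul_ne_zero hC hX) hH0, natDegree_C_mul_X_pow _ _ hγ0, hH]
      omega
    have hQl : (C γ * X ^ (α.natDegree - 3) * H).leadingCoeff = α.leadingCoeff := by
      rw [leadingCoeff_mul, leadingCoeff_mul, leadingCoeff_C, leadingCoeff_X_pow, mul_one, hγ,
        mul_comm]
    have hlt : (α - C γ * X ^ (α.natDegree - 3) * H).degree < α.degree := by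
      apply degree_sub_lt_left _ hα0 hQl.symm
      rw [degree_eq_natDegree hα0, degree_eq_natDegree hQ0, hQd]
    have e8 : α * F + β * H = (α - C γ * X ^ (α.natDegree - 3) * H) * F +
        (β + C γ * X ^ (α.natDegree - 3) * F) * H := by ring
    rw [e8]
    apply ih
    · by_cases h0 : α - C γ * X ^ (α.natDegree - 3) * H = 0
      · exact Or.inl h0
      · right
        have := natDegree_lt_natDegree h0 hlt
        omega
    · intro i
      rw [coeff_sub]
      refine (MvPolynomial.totalDegree_sub _ _).trans (max_le (hαd i) ?_)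
      rw [mul_assoc, coeff_C_mul, coeff_X_pow_mul']
      split_ifs with hi
      · refine (MvPolynomial.totalDegree_mul _ _).trans ?_
        have := hHd (i - (α.natDegree - 3))
        omega
      · rw [mul_zero, MvPolynomial.totalDegree_zero]
        exact Nat.zero_le _
    · rw [← e8]
      exact hd

theorem descent {M : Type*} [Field M] (F H α β : Polynomial (MvPolynomial (Fin 2) M))
    (hF : F.natDegree = 4) (hH : H.natDegree = 3) (hb : H.leadingCoeff.IsHomogeneous 3)
    (hcop : ∀ g, H.leadingCoeff ∣ g * F.leadingCoeff → H.leadingCoeff ∣ g)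
    (hα : ∀ i, (α.coeff i).totalDegree ≤ i) (hHd : ∀ i, (H.coeff i).totalDegree ≤ i)
    (hdeg : (α * F + β * H).natDegree ≤ 3) :
    ∃ c : MvPolynomial (Fin 2) M, α * F + β * H = C c * H := RD_aux F H hF hH hb hcop hHd (α.natDegree + 1) α β (Or.inr (Nat.lt_succ_self _)) hα hdeg

end Pool.Agent.TQU
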